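import Pool.Agent.Lib.MP_1b8ce0_al.Jump

namespace Pool.Agent.Lib.MP_1b8ce0_al

open Finset

/-- domination -/
def dom {V : Type} (m : V → V → ℕ) (x y : V) : Prop := ∀ z, adj m x z → z = y ∨ adj m y z

open Classical in
/-- star -/
noncomputable def st {V : Type} [Fintype V] (n : V → V → ℕ) (u : V) : Finset V :=
  univ.filter fun v => v = u ∨ adj n u v

theorem mem_st {V : Type} [Fintype V] {n : V → V → ℕ} {u v : V} :
    v ∈ st n u ↔ v = u ∨ adj n u v := by
  simp [st]

theorem adj_symm {V : Type} {n : V → V → ℕ} (hn : ∀ u v, n u v = n v u) {u v : V}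
    (h : adj n u v) : adj n v u := ⟨h.1.symm, by rw [hn]; exact h.2⟩

variable {V V' : Type} [Fintype V] [Fintype V'] [DecidableEq V] [DecidableEq V']

omit [DecidableEq V'] in
theorem deg_le {n : V → V → ℕ} {m : V' → V' → ℕ} {A : Matrix V V' ℤ} {B : Matrix V' V ℤ}
    (hK : KProp n m A) (hAB : A * B = 1) {u : V} {x : V'} (h : A u x ≠ 0) :
    (st n u).card ≤ (st m x).card ∧
      ((st n u).card = (st m x).card → ∀ y, A u y ≠ 0 → dom m x y) := by
  classical
  let b : (st n u → ℚ) → V' → ℚ := fun c y => ∑ v : st n u, c v * (A v y : ℚ)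
  let R : (st n u → ℚ) →ₗ[ℚ] (st m x → ℚ) :=
    { toFun := fun c z => b c z
      map_add' := by intro c c'; funext z; simp [b, add_mul, Finset.sum_add_distrib]
      map_smul' := by intro r c; funext z; simp [b, Finset.mul_sum, mul_assoc] }
  have key : ∀ c y y', y ≠ y' → m y y' = 0 → (A u y : ℚ) * b c y' = A u y' * b c y := by
    intro c y y' hy h0
    simp only [b, Finset.mul_sum]
    apply Finset.sum_congr rfl
    intro v _
    have : (A u y : ℚ) * A v y' = A u y' * A v y := by
      rcases mem_st.1 v.2 with hv | hv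
      · rw [hv]; ring
      · have := hK u v y y' hv hy
        rw [h0] at this
        simp only [Nat.cast_zero, zero_dvd_iff, mul_eq_zero, Nat.cast_eq_zero] at this
        have h2 := sub_eq_zero.1 (this.resolve_left hv.2)
        exact_mod_cast h2
    linear_combination c v * this
  have hout : ∀ c y, y ∉ st m x → b c x = 0 → b c y = 0 := by
    intro c y hy h0
    rw [mem_st, not_or] at hy
    have h1 : m x y = 0 := by
      by_contra h2
      exact hy.2 ⟨fun e => hy.1 e.symm, h2⟩
    have := key c x y (fun e => hy.1 e.symm) h1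
    rw [h0, mul_zero] at this
    have h3 : (A u x : ℚ) ≠ 0 := by exact_mod_cast h
    exact (mul_eq_zero.1 this).resolve_left h3
  have hx : x ∈ st m x := mem_st.2 (Or.inl rfl)
  have hinj : Function.Injective R := by
    rw [injective_iff_map_eq_zero]
    intro c hc
    have hb : ∀ y, b c y = 0 := by
      intro y
      by_cases hy : y ∈ st m x
      · exact congrFun hc ⟨y, hy⟩
      · exact hout c y hy (congrFun hc ⟨x, hx⟩)
    funext w
    have e1 : ∑ y, b c y * (B y w : ℚ) = c w := by
      simp only [b, Finset.sum_mul]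
      rw [Finset.sum_comm]
      have : ∀ v : st n u, ∑ y, c v * (A v y : ℚ) * B y w = if v = w then c v else 0 := by
        intro v
        have e := congrFun (congrFun hAB v) w
        rw [Matrix.mul_apply, Matrix.one_apply] at e
        have e2 : ∑ y, (A v y : ℚ) * B y w = if (v : V) = w then 1 else 0 := by
          have := congrArg (Int.cast : ℤ → ℚ) e
          push_cast at this
          simpa using this
        simp only [mul_assoc, ← Finset.mul_sum, e2, Subtype.ext_iff]
        split_ifs <;> simp
      simp [this]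
    simp [hb] at e1
    exact e1.symm
  constructor
  · have := LinearMap.finrank_le_finrank_of_injective hinj
    simpa using this
  · intro hc y hy z hz
    have hsurj : Function.Surjective R :=
      (LinearMap.injective_iff_surjective_of_finrank_eq_finrank (by simpa using hc)).1 hinj
    have hz' : z ∈ st m x := mem_st.2 (Or.inr hz)
    obtain ⟨c, hcz⟩ := hsurj (fun w => if (w : V') = z then 1 else 0)
    have hcz' : ∀ w (hw : w ∈ st m x), b c w = if w = z then 1 else 0 :=
      fun w hw => congrFun hcz ⟨w, hw⟩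
    have b1 : b c z = 1 := by simpa using hcz' z hz'
    have b0 : ∀ w, w ≠ z → b c w = 0 := by
      intro w hw
      by_cases hw' : w ∈ st m x
      · simpa [hw] using hcz' w hw'
      · apply hout c w hw'
        simpa [hz.1] using hcz' x hx
    by_contra hcon
    rw [not_or] at hcon
    have h1 : m y z = 0 := by
      by_contra h2
      exact hcon.2 ⟨fun e => hcon.1 e.symm, h2⟩
    have := key c y z (fun e => hcon.1 e.symm) h1
    rw [b1, b0 y (fun e => hcon.1 e.symm)] at this
    simp at this
    exact hy this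

theorem exists_transversal {A : Matrix V V' ℤ} {B : Matrix V' V ℤ}
    (hAB : A * B = 1) (hBA : B * A = 1) : ∃ σ : V ≃ V', ∀ u, A u (σ u) ≠ 0 := by
  have hc : Fintype.card V = Fintype.card V' := by
    have := Matrix.trace_mul_comm A B
    rw [hAB, hBA, Matrix.trace_one, Matrix.trace_one] at this
    exact_mod_cast this
  let e : V ≃ V' := Fintype.equivOfCardEq hc
  have h1 : A.submatrix id e * B.submatrix e id = 1 := by
    rw [Matrix.submatrix_mul_equiv, hAB]; rfl
  have h2 : (A.submatrix id e).det ≠ 0 := by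
    intro h
    have := congrArg Matrix.det h1
    rw [Matrix.det_mul, h, zero_mul, Matrix.det_one] at this
    exact zero_ne_one this
  rw [Matrix.det_apply] at h2
  obtain ⟨σ, _, hσ⟩ := Finset.exists_ne_zero_of_sum_ne_zero h2
  have h3 : ∏ i, A.submatrix id e (σ i) i ≠ 0 := by
    intro h; rw [h] at hσ; simp at hσ
  rw [Finset.prod_ne_zero_iff] at h3
  refine ⟨σ.symm.trans e, fun u => ?_⟩
  have := h3 (σ.symm u) (Finset.mem_univ _)
  simpa using this

theorem exists_sigma {n : V → V → ℕ} {m : V' → V' → ℕ} {A : Matrix V V' ℤ} {B : Matrix V' V ℤ}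
    (hK : KProp n m A) (hK' : KProp m n B) (hAB : A * B = 1) (hBA : B * A = 1) :
    ∃ σ : V ≃ V', ∀ u, A u (σ u) ≠ 0 ∧ (st n u).card = (st m (σ u)).card := by
  obtain ⟨σ, hσ⟩ := exists_transversal hAB hBA
  obtain ⟨τ, hτ⟩ := exists_transversal hBA hAB
  have h1 : ∀ u, (st n u).card ≤ (st m (σ u)).card := fun u => (deg_le hK hAB (hσ u)).1
  have h2 : ∀ x, (st m x).card ≤ (st n (τ x)).card := fun x => (deg_le hK' hBA (hτ x)).1
  have e1 : ∑ u, (st m (σ u)).card = ∑ x, (st m x).card := σ.sum_comp fun x => (st m x).card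
  have e2 : ∑ x, (st n (τ x)).card = ∑ u, (st n u).card := τ.sum_comp fun u => (st n u).card
  have h3 : ∑ x, (st m x).card ≤ ∑ x, (st n (τ x)).card := Finset.sum_le_sum fun x _ => h2 x
  have h4 : ∑ u, (st n u).card ≤ ∑ u, (st m (σ u)).card := Finset.sum_le_sum fun x _ => h1 x
  have h5 : ∑ u, (st n u).card = ∑ u, (st m (σ u)).card := by omega
  rw [Finset.sum_eq_sum_iff_of_le fun x _ => h1 x] at h5
  exact ⟨σ, fun u => ⟨hσ u, h5 u (Finset.mem_univ _)⟩⟩

theorem dom_refl {V : Type} (m : V → V → ℕ) (x : V) : dom m x x := fun _ h => Or.inr h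

theorem dom_trans {V : Type} {m : V → V → ℕ} (hm : ∀ u v, m u v = m v u) {x y z : V}
    (h1 : dom m x y) (h2 : dom m y z) : dom m x z := by
  intro w hw
  rcases h1 w hw with h | h
  · subst h
    rcases h2 x (adj_symm hm hw) with h3 | h3
    · subst h3; exact Or.inr hw
    · rcases h1 z (adj_symm hm h3) with h4 | h4
      · exact Or.inl h4.symm
      · exact Or.inr (adj_symm hm h4)
  · exact h2 w h

theorem adj_of_dom {V : Type} {m : V → V → ℕ} (hm : ∀ u v, m u v = m v u) {x y u v : V}
    (h1 : dom m x u) (h2 : dom m y v) (h : adj m x y) (huv : u ≠ v) : adj m u v := by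
  rcases h1 y h with h3 | h3
  · subst h3
    rcases h2 x (adj_symm hm h) with h4 | h4
    · subst h4; exact adj_symm hm h
    · rcases h1 v (adj_symm hm h4) with h5 | h5
      · exact absurd h5.symm huv
      · exact h5
  · rcases h2 u (adj_symm hm h3) with h4 | h4
    · exact absurd h4 huv
    · exact adj_symm hm h4

theorem tri_inv {m : V → V → ℕ} (hm : ∀ u v, m u v = m v u) {A B : Matrix V V ℤ}
    (hAB : A * B = 1) (hA : ∀ u y, A u y ≠ 0 → dom m u y) (x u : V) (h : B x u ≠ 0) :
    dom m x u := by
  classical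
  by_contra hcon
  apply h
  let _ : Invertible A := invertibleOfRightInverse A B hAB
  have hT : A.BlockTriangular fun v => if dom m x v then (1 : ℕ) else 0 := by
    intro i j hij
    by_contra hne
    have h1 := hA i j hne
    by_cases hi : dom m x i
    · have hj := dom_trans hm hi h1
      simp [hi, hj] at hij
    · simp [hi] at hij
  have h2 := Matrix.blockTriangular_inv_of_blockTriangular hT
  rw [Matrix.inv_eq_right_inv hAB] at h2
  apply h2
  simp [hcon, dom_refl]

/-- The normalised situation. -/
structure Norm {V : Type} [Fintype V] [DecidableEq V] (n m : V → V → ℕ) (A B : Matrix V V ℤ) :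
    Prop where
  hn : ∀ u v, n u v = n v u
  hm : ∀ u v, m u v = m v u
  hAB : A * B = 1
  hBA : B * A = 1
  hK : KProp n m A
  hJ : JProp n m A
  triA : ∀ u y, A u y ≠ 0 → dom m u y
  triB : ∀ u y, B u y ≠ 0 → dom m u y
  hadj : ∀ u v, adj n u v ↔ adj m u v
  hT : ∀ x y z, adj m y z → m x y = 1 → m x z = 1 → x = y ∨ x = z

theorem exists_norm {n : V → V → ℕ} {m : V' → V' → ℕ} {A : Matrix V V' ℤ} {B : Matrix V' V ℤ}
    (hn : ∀ u v, n u v = n v u) (hm : ∀ u v, m u v = m v u)
    (hK : KProp n m A) (hK' : KProp m n B) (hAB : A * B = 1) (hBA : B * A = 1)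
    (hJ : JProp n m A) (hT : ∀ x y z, adj m y z → m x y = 1 → m x z = 1 → x = y ∨ x = z) :
    ∃ σ : V ≃ V', Norm n (fun u v => m (σ u) (σ v)) (A.submatrix id σ) (B.submatrix σ id) := by
  obtain ⟨σ, hσ⟩ := exists_sigma hK hK' hAB hBA
  have hadj' : ∀ u v, adj (fun u v => m (σ u) (σ v)) u v ↔ adj m (σ u) (σ v) := by
    intro u v
    simp [adj]
  have hdom : ∀ u v, dom m (σ u) (σ v) → dom (fun u v => m (σ u) (σ v)) u v := by
    intro u v h z hz
    rcases h (σ z) ((hadj' _ _).1 hz) with h1 | h1
    · exact Or.inl (σ.injective h1)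
    · exact Or.inr ((hadj' _ _).2 h1)
  have hm' : ∀ u v, (fun u v => m (σ u) (σ v)) u v = (fun u v => m (σ u) (σ v)) v u :=
    fun u v => hm _ _
  have hAB' : A.submatrix id σ * B.submatrix σ id = 1 := by
    rw [Matrix.submatrix_mul_equiv, hAB]; rfl
  have hBA' : B.submatrix σ id * A.submatrix id σ = 1 := by
    have := Matrix.submatrix_mul_equiv B A σ (Equiv.refl V) σ
    simp only [Equiv.coe_refl] at this
    rw [this, hBA, Matrix.submatrix_one_equiv]
  have triA : ∀ u y, A.submatrix id σ u y ≠ 0 → dom (fun u v => m (σ u) (σ v)) u y := by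
    intro u y h
    exact hdom u y ((deg_le hK hAB (hσ u).1).2 (hσ u).2 (σ y) h)
  have triB := tri_inv hm' hAB' triA
  have hK2 : KProp n (fun u v => m (σ u) (σ v)) (A.submatrix id σ) := by
    intro u v x y h hxy
    exact hK u v (σ x) (σ y) h (σ.injective.ne hxy)
  have hfor : ∀ u v, adj n u v → adj (fun u v => m (σ u) (σ v)) u v := by
    intro u v h
    generalize A.submatrix id σ = A' at *
    generalize B.submatrix σ id = B' at *
    have e : ∑ x, ∑ y, (A' u x * A' v y - A' u y * A' v x) * (B' x u * B' y v) = 1 := by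
      have e1 : ∑ x, A' u x * B' x u = 1 := by
        simpa [Matrix.mul_apply] using congrFun (congrFun hAB' u) u
      have e2 : ∑ x, A' v x * B' x v = 1 := by
        simpa [Matrix.mul_apply] using congrFun (congrFun hAB' v) v
      have e3 : ∑ x, A' u x * B' x v = 0 := by
        simpa [Matrix.mul_apply, h.1] using congrFun (congrFun hAB' u) v
      have e4 : (∑ x, A' u x * B' x u) * (∑ x, A' v x * B' x v) -
          (∑ x, A' v x * B' x u) * (∑ x, A' u x * B' x v) = 1 := by
        rw [e1, e2, e3]; ring
      rw [← e4, Finset.sum_mul_sum, Finset.sum_mul_sum, ← Finset.sum_sub_distrib]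
      apply Finset.sum_congr rfl
      intro x _
      rw [← Finset.sum_sub_distrib]
      apply Finset.sum_congr rfl
      intro y _
      ring
    obtain ⟨x, _, hx⟩ := Finset.exists_ne_zero_of_sum_ne_zero (by rw [e]; exact one_ne_zero)
    obtain ⟨y, _, hy⟩ := Finset.exists_ne_zero_of_sum_ne_zero hx
    have h1 := left_ne_zero_of_mul hy
    have h2 := right_ne_zero_of_mul hy
    have hxy : x ≠ y := by
      rintro rfl
      exact h1 (by ring)
    refine adj_of_dom hm' (triB x u (left_ne_zero_of_mul h2)) (triB y v (right_ne_zero_of_mul h2))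
      ⟨hxy, fun h0 => ?_⟩ h.1
    have := hK2 u v x y h hxy
    rw [h0] at this
    simp only [Nat.cast_zero, zero_dvd_iff, mul_eq_zero, Nat.cast_eq_zero] at this
    exact h1 (this.resolve_left h.2)
  refine ⟨σ, hn, hm', hAB', hBA', hK2, ?_, triA, triB, ?_, ?_⟩
  · intro lam mu X L U hL hU hz hex hdead
    apply hJ (fun x => lam (σ.symm x)) (fun x => mu (σ.symm x)) (σ.symm ⁻¹' X) L U
    · intro u
      rw [hL, ← σ.sum_comp]; simp
    · intro u
      rw [hU, ← σ.sum_comp]; simp
    · intro x; exact hz _
    · obtain ⟨x, hx, y, hy, h1, h2, h3⟩ := hex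
      exact ⟨σ x, by simpa using hx, σ y, by simpa using hy, (hadj' _ _).1 h1,
        by simpa using h2, by simpa using h3⟩
    · intro x hx y hy h1 h2 h3
      have := hdead (σ.symm x) hx (σ.symm y) hy ((hadj' _ _).2 (by simpa using h1)) h2 h3
      simpa using this
  · intro u v
    refine ⟨hfor u v, fun h => ?_⟩
    have hsub : st n u ⊆ st (fun u v => m (σ u) (σ v)) u := by
      intro w hw
      rw [mem_st] at hw ⊢
      exact hw.imp_right (hfor u w)
    have hcard : (st (fun u v => m (σ u) (σ v)) u).card = (st m (σ u)).card := by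
      apply Finset.card_bij (fun w _ => σ w)
      · intro w hw
        rw [mem_st] at hw ⊢
        rcases hw with h1 | h1
        · exact Or.inl (by rw [h1])
        · exact Or.inr ((hadj' _ _).1 h1)
      · intro a _ b _ h; exact σ.injective h
      · intro w hw
        refine ⟨σ.symm w, ?_, by simp⟩
        rw [mem_st] at hw ⊢
        rcases hw with h1 | h1
        · exact Or.inl (by rw [h1]; simp)
        · exact Or.inr ((hadj' _ _).2 (by simpa using h1))
    have heq := Finset.eq_of_subset_of_card_le hsub (by rw [hcard, (hσ u).2])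
    have : v ∈ st n u := by rw [heq, mem_st]; exact Or.inr h
    rcases mem_st.1 this with h1 | h1
    · exact absurd h1.symm h.1
    · exact h1
  · intro x y z h h1 h2
    rcases hT (σ x) (σ y) (σ z) ((hadj' _ _).1 h) h1 h2 with h3 | h3
    · exact Or.inl (σ.injective h3)
    · exact Or.inr (σ.injective h3)

end Pool.Agent.Lib.MP_1b8ce0_al
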