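import Pool.Agent.Lib.MP_1b8ce0_al.Comb1

namespace Pool.Agent.Lib.MP_1b8ce0_al

open Finset

/-- twins -/
def tw {V : Type} (m : V → V → ℕ) (x y : V) : Prop := dom m x y ∧ dom m y x

theorem exists_generic (V : Type) [Fintype V] :
    ∃ θ : V → ℝ, ∀ h : V → ℤ, ∑ x, (h x : ℝ) * θ x = 0 → ∀ x, h x = 0 := by
  have h1 : ((Fintype.card V : ℕ) : Cardinal) ≤ Module.rank ℚ ℝ := by
    rw [Real.rank_rat_real]
    exact (Cardinal.nat_lt_continuum _).le
  obtain ⟨f, hf⟩ := exists_linearIndependent_of_le_rank h1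
  have h2 := hf.comp _ (Fintype.equivFin V).injective
  refine ⟨f ∘ Fintype.equivFin V, fun h hh x => ?_⟩
  rw [Fintype.linearIndependent_iff] at h2
  have := h2 (fun x => (h x : ℚ)) (by simpa [Rat.smul_def] using hh) x
  exact_mod_cast this

variable {V : Type} [Fintype V] [DecidableEq V] {n m : V → V → ℕ} {A B : Matrix V V ℤ}

theorem jump2 (N : Norm n m A B) (T : Set V) (y0 : V) (hy0 : y0 ∈ T) (l : V → ℤ) (mu : V → ℚ)
    (X : Set V) (el : V → ℤ) (U : V → ℚ)
    (hel : ∀ u, el u = ∑ x, A u x * l x) (hU : ∀ u, U u = ∑ x, A u x * mu x)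
    (hl : ∀ x, x ∉ T → l x = 0) (hmu : ∀ x, l x = 0 → mu x = 0)
    (hX : ∀ x ∈ X, x ∈ T ∧ ∀ y, adj m x y → y ∈ T)
    (hex : ∃ x ∈ X, ∃ y ∉ X, adj m x y ∧ l x ≠ 0 ∧ l y ≠ 0)
    (hdead : ∀ x ∈ X, ∀ y ∉ X, adj m x y → l x ≠ 0 → l y ≠ 0 →
      l x + l y = 0 ∧ IsI (m x y * (mu x + mu y)) ∧ ¬ IsI (mu x + mu y)) :
    ∃ c : V → ℂ, (∃ v w, adj n v w ∧ ((∃ z ∉ T, A v z ≠ 0) ∨ el v ≠ 0) ∧
        ((∃ z ∉ T, A w z ≠ 0) ∨ el w ≠ 0) ∧ c v ≠ c w) ∧
      ∀ u w, adj n u w → (((∃ z ∉ T, A u z ≠ 0) ∨ el u ≠ 0) ∨ ¬ IsI (U u)) →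
        (((∃ z ∉ T, A w z ≠ 0) ∨ el w ≠ 0) ∨ ¬ IsI (U w)) → c u ≠ c w →
        (∀ z ∉ T, A u z + A w z = 0) ∧ el u + el w = 0 ∧
          IsI (n u w * (U u + U w)) ∧ ¬ IsI (U u + U w) := by
  classical
  obtain ⟨θ, hθ⟩ := exists_generic V
  have hθ0 : θ y0 ≠ 0 := by
    intro h
    have := hθ (fun x => if x = y0 then 1 else 0) (by simp [h]) y0
    simp at this
  let lam : V → ℝ := fun x => if x ∈ T then l x * θ y0 else θ x
  have key : ∀ h : V → ℤ, ∑ x, (h x : ℝ) * lam x = 0 ↔ (∀ z ∉ T, h z = 0) ∧ ∑ x, h x * l x = 0 := by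
    intro h
    have e : ∑ x, (h x : ℝ) * lam x =
        ∑ x, (((if x = y0 then ∑ z, h z * l z else 0) + (if x ∈ T then 0 else h x) : ℤ) : ℝ) *
          θ x := by
      push_cast
      simp only [add_mul, Finset.sum_add_distrib, ite_mul, zero_mul, Finset.sum_ite_eq',
        Finset.mem_univ, if_true, Finset.sum_mul]
      rw [← Finset.sum_add_distrib]
      apply Finset.sum_congr rfl
      intro x _
      by_cases hx : x ∈ T
      · simp [lam, hx, mul_assoc]
      · simp [lam, hx, hl x hx]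
    rw [e]
    constructor
    · intro h0
      have h1 := hθ _ h0
      constructor
      · intro z hz
        have h2 : z ≠ y0 := fun e => hz (e ▸ hy0)
        simpa [hz, h2] using h1 z
      · simpa [hy0] using h1 y0
    · rintro ⟨h1, h2⟩
      apply Finset.sum_eq_zero
      intro x _
      by_cases hx : x ∈ T
      · simp [hx, h2]
      · simp [hx, h2, h1 x hx]
  have hlam : ∀ x ∈ T, (lam x ≠ 0 ↔ l x ≠ 0) := by
    intro x hx
    simp [lam, hx, hθ0]
  have hal : ∀ u, (∑ x, (A u x : ℝ) * lam x ≠ 0) ↔ ((∃ z ∉ T, A u z ≠ 0) ∨ el u ≠ 0) := by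
    intro u
    rw [Ne, key, hel]
    push Not
    constructor
    · intro h
      by_cases h1 : ∀ z ∉ T, A u z = 0
      · exact Or.inr (h h1)
      · push Not at h1
        exact Or.inl h1
    · rintro (⟨z, hz, h1⟩ | h) h2
      · exact absurd (h2 z hz) h1
      · exact h
  obtain ⟨c, ⟨v, w, h1, h2, h3, h4⟩, hc⟩ := N.hJ lam mu X (fun u => ∑ x, (A u x : ℝ) * lam x) U
    (fun _ => rfl) hU
    (by
      intro x hx
      by_cases hT : x ∈ T
      · by_contra h
        exact (hlam x hT).2 (fun h1 => h (hmu x h1)) hx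
      · exact hmu x (hl x hT))
    (by
      obtain ⟨x, hx, y, hy, h1, h2, h3⟩ := hex
      exact ⟨x, hx, y, hy, h1, (hlam x (hX x hx).1).2 h2, (hlam y ((hX x hx).2 y h1)).2 h3⟩)
    (by
      intro x hx y hy h1 h2 h3
      have hxT := (hX x hx).1
      have hyT := (hX x hx).2 y h1
      obtain ⟨e1, e2⟩ := hdead x hx y hy h1 ((hlam x hxT).1 h2) ((hlam y hyT).1 h3)
      refine ⟨?_, e2⟩
      simp only [lam, hxT, hyT, if_true]
      rw [← add_mul]
      have : (l x : ℝ) + l y = 0 := by exact_mod_cast e1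
      rw [this, zero_mul])
  refine ⟨c, ⟨v, w, h1, (hal v).1 h2, (hal w).1 h3, h4⟩, ?_⟩
  intro u w h5 h6 h7 h8
  obtain ⟨e1, e2⟩ := hc u w h5 (h6.imp_left (hal u).2) (h7.imp_left (hal w).2) h8
  have e3 := (key fun x => A u x + A w x).1 (by
    rw [← e1, ← Finset.sum_add_distrib]
    apply Finset.sum_congr rfl
    intro x _
    push_cast; ring)
  refine ⟨e3.1, ?_, e2⟩
  rw [hel, hel, ← Finset.sum_add_distrib, ← e3.2]
  apply Finset.sum_congr rfl
  intro x _
  ring

theorem tw_refl {V : Type} (m : V → V → ℕ) (x : V) : tw m x x := ⟨dom_refl m x, dom_refl m x⟩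

theorem tw_symm {V : Type} {m : V → V → ℕ} {x y : V} (h : tw m x y) : tw m y x := ⟨h.2, h.1⟩

theorem tw_trans {V : Type} {m : V → V → ℕ} (hm : ∀ u v, m u v = m v u) {x y z : V}
    (h : tw m x y) (h' : tw m y z) : tw m x z :=
  ⟨dom_trans hm h.1 h'.1, dom_trans hm h'.2 h.2⟩

theorem tw_adj {V : Type} {m : V → V → ℕ} {x y z : V}
    (h : tw m x y) (hz : adj m x z) (hne : z ≠ y) : adj m y z := (h.1 z hz).resolve_left hne

theorem recover (N : Norm n m A B) (u w z' : V) :
    ∑ z, (A u z + A w z) * B z z' = (if u = z' then 1 else 0) + (if w = z' then 1 else 0) := by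
  have e1 := congrFun (congrFun N.hAB u) z'
  have e2 := congrFun (congrFun N.hAB w) z'
  rw [Matrix.mul_apply, Matrix.one_apply] at e1 e2
  rw [← e1, ← e2, ← Finset.sum_add_distrib]
  apply Finset.sum_congr rfl
  intro x _
  ring

theorem recover1 (N : Norm n m A B) (u z' : V) :
    ∑ z, A u z * B z z' = (if u = z' then 1 else 0) := by
  have e1 := congrFun (congrFun N.hAB u) z'
  rw [Matrix.mul_apply, Matrix.one_apply] at e1
  exact e1

theorem recoverB (N : Norm n m A B) (u z' : V) :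
    ∑ z, B u z * A z z' = (if u = z' then 1 else 0) := by
  have e1 := congrFun (congrFun N.hBA u) z'
  rw [Matrix.mul_apply, Matrix.one_apply] at e1
  exact e1

theorem isI_inv {k : ℕ} (h0 : k ≠ 0) (h1 : k ≠ 1) : ¬ IsI (1 / (k : ℚ)) := by
  rintro ⟨j, hj⟩
  have h2 : (k : ℚ) ≠ 0 := by exact_mod_cast h0
  have h3 : (j : ℚ) * k = 1 := by rw [← hj]; field_simp
  have h4 : j * (k : ℤ) = 1 := by exact_mod_cast h3
  have := Int.eq_one_of_mul_eq_one_left (by positivity) h4
  exact h1 (by exact_mod_cast this)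

theorem free_monomial (N : Norm n m A B) {x x' y : V} (hx' : tw m x x') (hne : x ≠ x')
    (hind : ∀ u, tw m x u → ∀ w, tw m x w → ¬ adj m u w) (hy : adj m x y) (hbig : m x y ≠ 1) :
    ∃ u, tw m x u ∧ (B x u = 1 ∨ B x u = -1) ∧ ∀ u', tw m x u' → u' ≠ u → B x u' = 0 := by
  classical
  by_contra hcon
  have hup : ∀ z z', adj m x z → dom m z z' → adj m x z' := by
    intro z z' hz hd
    rcases hd x (adj_symm N.hm hz) with h | h
    · exfalso
      subst h
      have h1 : z ≠ x' := by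
        rintro rfl
        exact hind x (tw_refl m x) z hx' hz
      rcases hd x' (adj_symm N.hm (tw_adj hx' hz h1)) with h | h
      · exact hne h.symm
      · exact hind x (tw_refl m x) x' hx' h
    · exact adj_symm N.hm h
  have hform : ∀ h : V → ℤ, (∀ z, z ∉ {z | z = x ∨ adj m x z} → h z = 0) →
      ∀ z', ¬ adj m x z' → ∑ z, h z * B z z' = h x * B x z' := by
    intro h hh z' hz'
    apply Finset.sum_eq_single x
    · intro z _ hz
      by_cases h1 : adj m x z
      · have : B z z' = 0 := by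
          by_contra h2
          exact hz' (hup z z' h1 (N.triB z z' h2))
        rw [this, mul_zero]
      · rw [hh z (by simp [hz, h1]), zero_mul]
    · simp
  have hnadj : ∀ u, tw m x u → ¬ adj m x u := fun u hu => hind x (tw_refl m x) u hu
  have hmono : ∀ (k : ℤ) u, tw m x u →
      (∀ u', tw m x u' → k * B x u' = if u = u' then 1 else 0) → False := by
    intro k u hu h
    apply hcon
    have h1 := h u hu
    simp only [if_true] at h1
    refine ⟨u, hu, Int.eq_one_or_neg_one_of_mul_eq_one (by rw [mul_comm]; exact h1), ?_⟩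
    intro u' hu' hne'
    have h2 := h u' hu'
    simp only [hne'.symm, if_false] at h2
    refine (mul_eq_zero.1 h2).resolve_left ?_
    rintro rfl
    simp at h1
  have hxy : x ≠ y := hy.1
  obtain ⟨c, ⟨v, w, h1, h2, h3, h4⟩, hc⟩ := jump2 N {z | z = x ∨ adj m x z} x (Or.inl rfl)
    (fun z => if z = x then 1 else if z = y then -1 else 0)
    (fun z => if z = y then 1 / (m x y : ℚ) else 0) {x} _ _ (fun _ => rfl) (fun _ => rfl)
    (by
      intro z hz
      simp only [Set.mem_ofPred_eq, not_or] at hz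
      have : z ≠ y := by rintro rfl; exact hz.2 hy
      simp [hz.1, this])
    (by
      intro z hz
      by_cases h : z = y
      · subst h; simp [hxy.symm] at hz
      · simp [h])
    (by
      intro z hz
      rw [Set.mem_singleton_iff] at hz
      subst hz
      exact ⟨Or.inl rfl, fun y hy => Or.inr hy⟩)
    ⟨x, rfl, y, hxy.symm, hy, by simp, by simp [hxy.symm]⟩
    (by
      intro z hz w hw h1 h2 h3
      rw [Set.mem_singleton_iff] at hz hw
      subst hz
      have : w = y := by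
        by_contra h
        simp [hw, h] at h3
      subst this
      simp only [hxy, hxy.symm, if_true, if_false, zero_add]
      refine ⟨by simp, ⟨1, ?_⟩, isI_inv hy.2 hbig⟩
      have : (m z w : ℚ) ≠ 0 := by exact_mod_cast hy.2
      field_simp
      simp)
  have halx : ∃ z ∉ {z | z = x ∨ adj m x z}, A x z ≠ 0 := by
    by_contra hh
    push Not at hh
    apply hmono (A x x) x (tw_refl m x)
    intro u' hu'
    rw [← hform (A x) hh u' (hnadj u' hu'), recover1 N]
  have hnf : ∀ w, adj m x w → ¬ ∀ z ∉ {z | z = x ∨ adj m x z}, A x z + A w z = 0 := by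
    intro w hw hh
    apply hmono (A x x + A w x) x (tw_refl m x)
    intro u' hu'
    rw [← hform (fun z => A x z + A w z) hh u' (hnadj u' hu'), recover N]
    have : w ≠ u' := by rintro rfl; exact hnadj w hu' hw
    simp [this]
  obtain ⟨f1, -⟩ := hc v w h1 (Or.inl h2) (Or.inl h3) h4
  have hvw := (N.hadj v w).1 h1
  have hF := fun z' hz' => (hform (fun z => A v z + A w z) f1 z' hz').symm.trans (recover N v w z')
  have hvC : ¬ tw m x v := by
    intro hv
    apply hmono (A v x + A w x) v hv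
    intro u' hu'
    rw [hF u' (hnadj u' hu')]
    have : w ≠ u' := by rintro rfl; exact hind v hv w hu' hvw
    simp [this]
  have hwC : ¬ tw m x w := by
    intro hw
    apply hmono (A v x + A w x) w hw
    intro u' hu'
    rw [hF u' (hnadj u' hu')]
    have : v ≠ u' := by rintro rfl; exact hind v hu' w hw hvw
    simp [this]
  have hk : A v x + A w x = 0 := by
    have e := recoverB N x x
    simp only [if_true] at e
    obtain ⟨u, _, hu⟩ := Finset.exists_ne_zero_of_sum_ne_zero (by rw [e]; exact one_ne_zero)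
    have hu' : tw m x u :=
      ⟨N.triB _ _ (left_ne_zero_of_mul hu), N.triA _ _ (right_ne_zero_of_mul hu)⟩
    have e2 := hF u (hnadj u hu')
    have e3 : v ≠ u := by rintro rfl; exact hvC hu'
    have e4 : w ≠ u := by rintro rfl; exact hwC hu'
    simp only [e3, e4, if_false, add_zero] at e2
    exact (mul_eq_zero.1 e2).resolve_right (left_ne_zero_of_mul hu)
  have hv : adj m x v := by
    by_contra hh
    have e := hF v hh
    rw [hk] at e
    simp [hvw.1.symm] at e
  have hw : adj m x w := by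
    by_contra hh
    have e := hF w hh
    rw [hk] at e
    simp [hvw.1] at e
  have c1 : c x = c v := by
    by_contra hh
    exact hnf v hv (hc x v ((N.hadj _ _).2 hv) (Or.inl (Or.inl halx)) (Or.inl h2) hh).1
  have c2 : c x = c w := by
    by_contra hh
    exact hnf w hw (hc x w ((N.hadj _ _).2 hw) (Or.inl (Or.inl halx)) (Or.inl h3) hh).1
  exact h4 (c1.symm.trans c2)

end Pool.Agent.Lib.MP_1b8ce0_al
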