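import Pool.Agent.Lib.MP_1b8ce0_al.Comb2

namespace Pool.Agent.Lib.MP_1b8ce0_al

open Finset

/-- closed star -/
def inT {V : Type} (m : V → V → ℕ) (r z : V) : Prop := z = r ∨ adj m r z

section
variable {V : Type} {m : V → V → ℕ} (hm : ∀ u v, m u v = m v u) {r r' : V}
include hm

theorem inT_of_dom (h1 : tw m r r') (h2 : adj m r r') {u : V} (hu : dom m r u) : inT m r u := by
  rcases hu r' h2 with h | h
  · subst h; exact Or.inr h2
  · exact h1.2 u (adj_symm hm h)

theorem cl_adj (h1 : tw m r r') (h2 : adj m r r') {u z : V} (hu : dom m r u) (hz : inT m r z) :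
    z = u ∨ adj m u z := by
  rcases hz with h | h
  · subst h
    rcases inT_of_dom hm h1 h2 hu with h | h
    · exact Or.inl h.symm
    · exact Or.inr (adj_symm hm h)
  · exact hu z h

theorem inT_up (h1 : tw m r r') (h2 : adj m r r') {v w : V} (hv : inT m r v) (hd : dom m v w) :
    inT m r w := by
  rcases hv with h | h
  · subst h; exact inT_of_dom hm h1 h2 hd
  · rcases hd r (adj_symm hm h) with h3 | h3
    · exact Or.inl h3.symm
    · exact Or.inr (adj_symm hm h3)
end

theorem isI_div {a : ℤ} {k : ℕ} (h0 : k ≠ 0) : IsI ((a : ℚ) / k) ↔ (k : ℤ) ∣ a := by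
  have h2 : (k : ℚ) ≠ 0 := by exact_mod_cast h0
  constructor
  · rintro ⟨j, hj⟩
    refine ⟨j, ?_⟩
    have h3 : (a : ℚ) = k * j := by rw [← hj]; field_simp
    exact_mod_cast h3
  · rintro ⟨j, hj⟩
    refine ⟨j, ?_⟩
    rw [hj]; push_cast; field_simp

variable {V : Type} [Fintype V] [DecidableEq V] {n m : V → V → ℕ} {A B : Matrix V V ℤ}

theorem clique_cut (N : Norm n m A B) {r r' : V} (h1 : tw m r r') (h2 : adj m r r')
    (y : V) (S : Finset V) (hy : inT m r y) (hS : ∀ x ∈ S, inT m r x ∧ x ≠ y ∧ m x y ≠ 1)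
    (hne : S.Nonempty) (hC : tw m r y ∨ ∀ x ∈ S, tw m r x) (k : V → ℤ)
    (hk : ∀ x ∈ S, ¬ (m x y : ℤ) ∣ k x) (el : V → ℤ) (U : V → ℚ)
    (hel : ∀ u, el u = ∑ x ∈ S, A u x - A u y)
    (hU : ∀ u, U u = ∑ x ∈ S, A u x * ((k x : ℚ) / m x y)) :
    (∀ u, dom m r u → -1 ≤ el u ∧ el u ≤ 1) ∧ (∀ u, dom m r u → el u = 0 → IsI (U u)) ∧
    (∀ u w, dom m r u → dom m r w → el u + el w = 0 → el u ≠ 0 →
      IsI (n u w * (U u + U w)) ∧ ¬ IsI (U u + U w)) ∧
    ∃ v w, inT m r v ∧ inT m r w ∧ el v = 1 ∧ el w = -1 := by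
  classical
  have hm := N.hm
  have hyS : y ∉ S := fun h => (hS y h).2.1 rfl
  have hadj : ∀ x ∈ S, adj m x y := by
    intro x hx
    rcases hC with h | h
    · exact adj_symm hm ((cl_adj hm h1 h2 h.1 (hS x hx).1).resolve_left (hS x hx).2.1)
    · exact (cl_adj hm h1 h2 (h x hx).1 hy).resolve_left (hS x hx).2.1.symm
  let l : V → ℤ := fun t => if t ∈ S then 1 else if t = y then -1 else 0
  let mu : V → ℚ := fun t => if t ∈ S then (k t : ℚ) / m t y else 0
  have hel' : ∀ u, el u = ∑ x, A u x * l x := by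
    intro u
    have : ∀ x, A u x * l x = (if x ∈ S then A u x else 0) - (if x = y then A u y else 0) := by
      intro x
      by_cases hx : x ∈ S
      · have : x ≠ y := (hS x hx).2.1
        simp [l, hx, this]
      · by_cases hx' : x = y
        · subst hx'; simp [l, hx]
        · simp [l, hx, hx']
    simp only [this, Finset.sum_sub_distrib, hel]
    simp
  have hU' : ∀ u, U u = ∑ x, A u x * mu x := by
    intro u
    simp [mu, hU]
  have hdd : ∀ x ∈ S, IsI (m x y * (mu x + mu y)) ∧ ¬ IsI (mu x + mu y) := by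
    intro x hx
    simp only [mu, hx, hyS, if_true, if_false, add_zero]
    refine ⟨⟨k x, ?_⟩, ?_⟩
    · have : (m x y : ℚ) ≠ 0 := by exact_mod_cast (hadj x hx).2
      field_simp
    · rw [isI_div (hadj x hx).2]; exact hk x hx
  have hlS : ∀ x ∈ S, l x = 1 := by intro x hx; simp [l, hx]
  have hly : l y = -1 := by simp [l, hyS]
  have hl0 : ∀ x, l x ≠ 0 → x ∈ S ∨ x = y := by
    intro x hx
    by_contra hh
    rw [not_or] at hh
    simp [l, hh.1, hh.2] at hx
  obtain ⟨X, hX, hex, hdead⟩ : ∃ X : Set V,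
      (∀ x ∈ X, x ∈ {z | inT m r z} ∧ ∀ y, adj m x y → y ∈ {z | inT m r z}) ∧
      (∃ x ∈ X, ∃ y ∉ X, adj m x y ∧ l x ≠ 0 ∧ l y ≠ 0) ∧
      (∀ x ∈ X, ∀ y ∉ X, adj m x y → l x ≠ 0 → l y ≠ 0 →
        l x + l y = 0 ∧ IsI (m x y * (mu x + mu y)) ∧ ¬ IsI (mu x + mu y)) := by
    obtain ⟨x0, hx0⟩ := hne
    rcases hC with h | h
    · refine ⟨{y}, ?_, ⟨y, rfl, x0, (hS x0 hx0).2.1, adj_symm hm (hadj x0 hx0), by simp [hly],
        by simp [hlS x0 hx0]⟩, ?_⟩
      · intro x hx
        rw [Set.mem_singleton_iff] at hx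
        subst hx
        exact ⟨hy, fun z hz => h.2 z hz⟩
      · intro x hx z hz _ _ h5
        rw [Set.mem_singleton_iff] at hx hz
        subst hx
        have hzS := (hl0 z h5).resolve_right hz
        have := hdd z hzS
        rw [hm z x, add_comm (mu z)] at this
        exact ⟨by simp [hly, hlS z hzS], this⟩
    · refine ⟨S, ?_, ⟨x0, hx0, y, hyS, hadj x0 hx0, by simp [hlS x0 hx0], by simp [hly]⟩, ?_⟩
      · intro x hx
        exact ⟨(hS x hx).1, fun z hz => (h x hx).2 z hz⟩
      · intro x hx z hz _ _ h5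
        have hzy := (hl0 z h5).resolve_left hz
        subst hzy
        exact ⟨by simp [hly, hlS x hx], hdd x hx⟩
  obtain ⟨c, ⟨v, w, hvw, hv, hw, hcvw⟩, hc⟩ := jump2 N {z | inT m r z} r (Or.inl rfl) l mu X el U
    hel' hU'
    (by
      intro x hx
      by_contra hh
      rcases hl0 x hh with h | h
      · exact hx (hS x h).1
      · subst h; exact hx hy)
    (by
      intro x hx
      have : x ∉ S := fun h => by rw [hlS x h] at hx; exact one_ne_zero hx
      simp [mu, this])
    hX hex hdead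
  have hA0 : ∀ u, inT m r u → ¬ ∃ z ∉ {z | inT m r z}, A u z ≠ 0 := by
    rintro u hu ⟨z, hz, h⟩
    exact hz (inT_up hm h1 h2 hu (N.triA u z h))
  obtain ⟨f1, f2, -⟩ := hc v w hvw (Or.inl hv) (Or.inl hw) hcvw
  have hout : ∀ z', ¬ inT m r z' →
      (if v = z' then 1 else 0) + (if w = z' then 1 else 0) = (0 : ℤ) := by
    intro z' hz'
    rw [← recover N]
    apply Finset.sum_eq_zero
    intro z _
    by_cases hz : inT m r z
    · have : B z z' = 0 := by
        by_contra hh
        exact hz' (inT_up hm h1 h2 hz (N.triB z z' hh))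
      rw [this, mul_zero]
    · rw [f1 z hz, zero_mul]
  have hvT : inT m r v := by
    by_contra hh
    have := hout v hh
    simp [hvw.1.symm] at this
  have hwT : inT m r w := by
    by_contra hh
    have := hout w hh
    simp [hvw.1] at this
  have hv0 : el v ≠ 0 := hv.resolve_left (hA0 v hvT)
  have hw0 : el w ≠ 0 := hw.resolve_left (hA0 w hwT)
  have step : ∀ u t, dom m r u → inT m r t → el t ≠ 0 → (el u ≠ 0 ∨ ¬ IsI (U u)) → c u ≠ c t →
      el u + el t = 0 ∧ IsI (n u t * (U u + U t)) ∧ ¬ IsI (U u + U t) := by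
    intro u t hu ht h0 hal hne'
    rcases cl_adj hm h1 h2 hu ht with h | h
    · subst h; exact absurd rfl hne'
    · exact (hc u t ((N.hadj _ _).2 h) (hal.imp_left Or.inr) (Or.inl (Or.inr h0)) hne').2
  have hvals : ∀ u, dom m r u → (el u ≠ 0 ∨ ¬ IsI (U u)) → el u = el v ∨ el u = el w := by
    intro u hu hal
    by_cases h : c u = c v
    · have := (step u w hu hwT hw0 hal (by rw [h]; exact hcvw)).1
      left; omega
    · have := (step u v hu hvT hv0 hal h).1
      right; omega
  have hunit : el v = 1 ∨ el v = -1 := by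
    obtain ⟨x0, hx0, hx1⟩ : ∃ x0, tw m r x0 ∧ (l x0 = 1 ∨ l x0 = -1) := by
      rcases hC with h | h
      · exact ⟨y, h, Or.inr hly⟩
      · obtain ⟨x0, hx0⟩ := hne
        exact ⟨x0, h x0 hx0, Or.inl (hlS x0 hx0)⟩
    have e : ∑ u, B x0 u * el u = l x0 := by
      simp only [hel', Finset.mul_sum]
      rw [Finset.sum_comm]
      simp only [← mul_assoc, ← Finset.sum_mul, recoverB N]
      simp
    have hd : el v ∣ l x0 := by
      rw [← e]
      apply Finset.dvd_sum
      intro u _
      by_cases hB : B x0 u = 0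
      · simp [hB]
      · apply Dvd.dvd.mul_left
        by_cases h0 : el u = 0
        · simp [h0]
        · rcases hvals u (dom_trans hm hx0.1 (N.triB _ _ hB)) (Or.inl h0) with h | h
          · rw [h]
          · have : el u = - el v := by omega
            rw [this]; simp
    rcases hx1 with h | h
    · rw [h] at hd; exact Int.isUnit_iff.1 (isUnit_of_dvd_one hd)
    · rw [h, dvd_neg] at hd; exact Int.isUnit_iff.1 (isUnit_of_dvd_one hd)
  refine ⟨?_, ?_, ?_, ?_⟩
  · intro u hu
    by_cases h0 : el u = 0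
    · omega
    · rcases hvals u hu (Or.inl h0) with h | h <;> omega
  · intro u hu h0
    by_contra hh
    rcases hvals u hu (Or.inr hh) with h | h <;> omega
  · intro u t hu ht hs h0
    have hcv : ∀ u, dom m r u → el u = el v → c u = c v := by
      intro u hu h
      by_contra hh
      have := (step u v hu hvT hv0 (Or.inl (by omega)) hh).1
      omega
    have hcw : ∀ u, dom m r u → el u = el w → c u = c w := by
      intro u hu h
      by_contra hh
      have := (step u w hu hwT hw0 (Or.inl (by omega)) hh).1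
      omega
    refine (step u t hu (inT_of_dom hm h1 h2 ht) (by omega) (Or.inl h0) ?_).2
    rcases hvals u hu (Or.inl h0) with h | h
    · rw [hcv u hu h, hcw t ht (by omega)]; exact hcvw
    · rw [hcw u hu h, hcv t ht (by omega)]; exact hcvw.symm
  · rcases hunit with h | h
    · exact ⟨v, w, hvT, hwT, h, by omega⟩
    · exact ⟨w, v, hwT, hvT, by omega, h⟩

theorem edge_cut (N : Norm n m A B) {r r' : V} (h1 : tw m r r') (h2 : adj m r r')
    {x y : V} (hx : inT m r x) (hy : inT m r y) (hxy : x ≠ y) (hbig : m x y ≠ 1)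
    (hC : tw m r y ∨ tw m r x) :
    (∀ u, dom m r u → -1 ≤ A u x - A u y ∧ A u x - A u y ≤ 1) ∧
    (∀ u, dom m r u → A u x = A u y → A u x ≠ 1 ∧ A u x ≠ -1) ∧
    (∀ u w, dom m r u → dom m r w → (A u x - A u y) + (A w x - A w y) = 0 → A u x - A u y ≠ 0 →
      m x y ∣ n u w) ∧
    ∃ v w, inT m r v ∧ inT m r w ∧ A v x - A v y = 1 ∧ A w x - A w y = -1 := by
  have hm := N.hm
  have hadj : adj m x y := by
    rcases hC with h | h
    · exact adj_symm hm ((cl_adj hm h1 h2 h.1 hx).resolve_left hxy)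
    · exact (cl_adj hm h1 h2 h.1 hy).resolve_left hxy.symm
  have main := fun (j : ℤ) (hj : ¬ (m x y : ℤ) ∣ j) =>
    clique_cut N h1 h2 y {x} hy (by simpa using ⟨hx, hxy, hbig⟩) (by simp)
      (by simpa using hC) (fun _ => j) (by simpa using hj) (fun u => A u x - A u y)
      (fun u => A u x * ((j : ℚ) / m x y)) (by simp) (by simp)
  have hone : ¬ (m x y : ℤ) ∣ 1 := by
    intro h
    have := Int.eq_one_of_dvd_one (by positivity) h
    exact hbig (by exact_mod_cast this)
  obtain ⟨a1, a2, a3, a4⟩ := main 1 hone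
  refine ⟨a1, ?_, ?_, a4⟩
  · intro u hu h
    have := a2 u hu (by omega)
    rw [← mul_div_assoc, ← Int.cast_mul, isI_div hadj.2, mul_one] at this
    constructor
    · intro h3; rw [h3] at this; exact hone this
    · intro h3; rw [h3, dvd_neg] at this; exact hone this
  · intro u w hu hw hs h0
    have b1 := (a3 u w hu hw hs h0).1
    have e1 : ∀ j : ℤ, (A u x : ℚ) * ((j : ℚ) / m x y) + A w x * ((j : ℚ) / m x y) =
        (((A u x + A w x) * j : ℤ) : ℚ) / m x y := by
      intro j; push_cast; ring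
    rw [e1, ← mul_div_assoc, ← Int.cast_natCast, ← Int.cast_mul, isI_div hadj.2, mul_one] at b1
    have hcop : Int.gcd (m x y : ℤ) (A u x + A w x) = 1 := by
      by_contra hg
      obtain ⟨j, hj⟩ := Int.gcd_dvd_left (m x y : ℤ) (A u x + A w x)
      obtain ⟨i, hi⟩ := Int.gcd_dvd_right (m x y : ℤ) (A u x + A w x)
      have hj' : ¬ (m x y : ℤ) ∣ j := by
        rintro ⟨t, ht⟩
        have hm0 : (m x y : ℤ) ≠ 0 := by exact_mod_cast hadj.2
        have e : (m x y : ℤ) * 1 = m x y * (Int.gcd (m x y : ℤ) (A u x + A w x) * t) := by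
          conv_lhs => rw [hj, ht]
          ring
        have e2 := mul_left_cancel₀ hm0 e
        have := Int.eq_one_of_mul_eq_one_right (by positivity) e2.symm
        exact hg (by exact_mod_cast this)
      have b2 := ((main j hj').2.2.1 u w hu hw hs h0).2
      rw [e1, isI_div hadj.2] at b2
      apply b2
      refine ⟨i, ?_⟩
      conv_lhs => rw [hi]
      conv_rhs => rw [hj]
      ring
    have := Int.dvd_of_dvd_mul_left_of_gcd_one b1 hcop
    exact_mod_cast this

theorem star_cut (N : Norm n m A B) {r r' : V} (h1 : tw m r r') (h2 : adj m r r')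
    {x z y : V} (hx : inT m r x) (hz : inT m r z) (hy : inT m r y) (hxy : x ≠ y) (hzy : z ≠ y)
    (hxz : x ≠ z) (hbig : m x y ≠ 1) (hbig' : m z y ≠ 1)
    (hC : tw m r y ∨ (tw m r x ∧ tw m r z)) :
    ∀ u, dom m r u → -1 ≤ A u x + A u z - A u y ∧ A u x + A u z - A u y ≤ 1 := by
  have hone : ∀ t, m t y ≠ 1 → ¬ (m t y : ℤ) ∣ 1 := by
    intro t ht h
    have := Int.eq_one_of_dvd_one (by positivity) h
    exact ht (by exact_mod_cast this)
  exact (clique_cut N h1 h2 y {x, z} hy (by simpa using ⟨⟨hx, hxy, hbig⟩, hz, hzy, hbig'⟩) (by simp)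
      (by simpa using hC) (fun _ => 1) (by simpa using ⟨hone x hbig, hone z hbig'⟩)
      (fun u => A u x + A u z - A u y) _ (by simp [hxz]) (fun _ => rfl)).1

end Pool.Agent.Lib.MP_1b8ce0_al
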