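import Pool.Agent.Lib.MP_1b8ce0_al.Comb3

namespace Pool.Agent.Lib.MP_1b8ce0_al

open Finset

/-- first requirement -/
def Alt {V : Type} (n m : V → V → ℕ) (A : Matrix V V ℤ) (u x : V) : Prop :=
  (A u x = 1 ∨ A u x = -1) ∨ ∀ v z, adj m u v → ¬ tw m u v → tw m v z → m x z ∣ n u v

/-- a good matching on a twin class -/
def Good {V : Type} (n m : V → V → ℕ) (A : Matrix V V ℤ) (r : V) (f : V → V) : Prop :=
  (∀ u, tw m r u → tw m r (f u)) ∧ (∀ u v, tw m r u → tw m r v → f u = f v → u = v) ∧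
  (∀ u, tw m r u → Alt n m A u (f u)) ∧
  (∀ u v, tw m r u → tw m r v → adj m u v → m (f u) (f v) ∣ n u v)

variable {V : Type} [Fintype V] [DecidableEq V] {n m : V → V → ℕ} {A B : Matrix V V ℤ}

theorem Good.transport (N : Norm n m A B) {r r' : V} {f : V → V} (h : tw m r r')
    (hg : Good n m A r' f) : Good n m A r f := by
  have e : ∀ u, tw m r u → tw m r' u := fun u hu => tw_trans N.hm (tw_symm h) hu
  exact ⟨fun u hu => tw_trans N.hm h (hg.1 u (e u hu)),
    fun u v hu hv => hg.2.1 u v (e u hu) (e v hv), fun u hu => hg.2.2.1 u (e u hu),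
    fun u v hu hv => hg.2.2.2 u v (e u hu) (e v hv)⟩

theorem dvd_of_unit_minor (N : Norm n m A B) {u v x y : V} (h : adj m u v) (hxy : x ≠ y)
    (hu : A u x * A v y - A u y * A v x = 1 ∨ A u x * A v y - A u y * A v x = -1) :
    m x y ∣ n u v := by
  have := N.hK u v x y ((N.hadj _ _).2 h) hxy
  rcases hu with h1 | h1
  · rw [h1, mul_one] at this; exact_mod_cast this
  · rw [h1, mul_neg_one, dvd_neg] at this; exact_mod_cast this

theorem block_transversal (N : Norm n m A B) (r : V) :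
    ∃ f : V → V, (∀ u, tw m r u → tw m r (f u)) ∧
      (∀ u v, tw m r u → tw m r v → f u = f v → u = v) ∧ ∀ u, tw m r u → A u (f u) ≠ 0 := by
  classical
  have key : ∀ P Q : Matrix V V ℤ, P * Q = 1 → (∀ u y, P u y ≠ 0 → dom m u y) →
      (∀ u y, Q u y ≠ 0 → dom m u y) →
      P.submatrix (Subtype.val : {x // tw m r x} → V) (Subtype.val : {x // tw m r x} → V) *
        Q.submatrix (Subtype.val : {x // tw m r x} → V) (Subtype.val : {x // tw m r x} → V)
          = 1 := by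
    intro P Q hPQ hP hQ
    ext u v
    have e := congrFun (congrFun hPQ u) v
    rw [Matrix.mul_apply, Matrix.one_apply] at e ⊢
    simp only [Matrix.submatrix_apply, Subtype.ext_iff]
    rw [← e]
    rw [← Finset.sum_subtype (Finset.univ.filter fun x => tw m r x) (by simp)
      (fun x => P u x * Q x v)]
    apply Finset.sum_subset (Finset.filter_subset _ _)
    intro x _ hx
    by_contra hh
    apply hx
    rw [Finset.mem_filter]
    exact ⟨Finset.mem_univ _, dom_trans N.hm u.2.1 (hP _ _ (left_ne_zero_of_mul hh)),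
      dom_trans N.hm (hQ _ _ (right_ne_zero_of_mul hh)) v.2.2⟩
  obtain ⟨σ, hσ⟩ := exists_transversal (key A B N.hAB N.triA N.triB) (key B A N.hBA N.triB N.triA)
  refine ⟨fun u => if h : tw m r u then (σ ⟨u, h⟩).1 else u, ?_, ?_, ?_⟩
  · intro u hu
    simp only [hu, dif_pos]
    exact (σ ⟨u, hu⟩).2
  · intro u v hu hv h
    simp only [hu, hv, dif_pos] at h
    exact congrArg Subtype.val (σ.injective (Subtype.ext h))
  · intro u hu
    simp only [hu, dif_pos]
    exact hσ ⟨u, hu⟩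

theorem adj_out (N : Norm n m A B) {u v x z : V} (hux : tw m u x) (h : adj m u v)
    (hn : ¬ tw m u v) (hz : tw m v z) : adj m x z ∧ ¬ tw m u z := by
  have h1 : v ≠ x := by rintro rfl; exact hn hux
  have h2 : ¬ tw m u z := fun hh => hn (tw_trans N.hm hh (tw_symm hz))
  have h3 : x ≠ z := by rintro rfl; exact h2 hux
  exact ⟨adj_symm N.hm (tw_adj hz (adj_symm N.hm (tw_adj hux h h1)) h3), h2⟩

theorem good_indep (N : Norm n m A B) (r : V)
    (hind : ∀ u, tw m r u → ∀ w, tw m r w → ¬ adj m u w) : ∃ f, Good n m A r f := by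
  obtain ⟨f, f1, f2, f3⟩ := block_transversal N r
  refine ⟨f, f1, f2, ?_, fun u v hu hv h => absurd h (hind u hu v hv)⟩
  intro u hu
  have hx := f1 u hu
  have hux : tw m u (f u) := tw_trans N.hm (tw_symm hu) hx
  by_cases hp : ∀ y, adj m (f u) y → m (f u) y = 1
  · right
    intro v z h1 h2 h3
    rw [hp z (adj_out N hux h1 h2 h3).1]
    exact one_dvd _
  left
  push Not at hp
  obtain ⟨y, hy, hbig⟩ := hp
  have hsum : ∀ u0, (∀ u', tw m (f u) u' → u' ≠ u0 → B (f u) u' = 0) →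
      ∀ x', tw m (f u) x' → B (f u) u0 * A u0 x' = if f u = x' then 1 else 0 := by
    intro u0 h0 x' hx'
    rw [← recoverB N]
    symm
    apply Finset.sum_eq_single u0
    · intro z _ hz
      by_contra hh
      exact left_ne_zero_of_mul hh (h0 z ⟨N.triB _ _ (left_ne_zero_of_mul hh),
        dom_trans N.hm (N.triA _ _ (right_ne_zero_of_mul hh)) hx'.2⟩ hz)
    · simp
  obtain ⟨u0, h1, h3⟩ : ∃ u0, tw m (f u) u0 ∧ ∀ u', tw m (f u) u' → u' ≠ u0 → B (f u) u' = 0 := by
    by_cases hs : ∃ x', tw m (f u) x' ∧ f u ≠ x'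
    · obtain ⟨x', h1, h2⟩ := hs
      obtain ⟨u0, a1, -, a3⟩ := free_monomial N h1 h2
        (fun a ha b hb => hind a (tw_trans N.hm hx ha) b (tw_trans N.hm hx hb)) hy hbig
      exact ⟨u0, a1, a3⟩
    · push Not at hs
      exact ⟨f u, tw_refl _ _, fun u' h1 h2 => absurd (hs u' h1).symm h2⟩
  have hu0 : tw m r u0 := tw_trans N.hm hx h1
  have e1 := hsum u0 h3 (f u) (tw_refl _ _)
  have e2 := hsum u0 h3 (f u0) (tw_trans N.hm (tw_symm hx) (f1 u0 hu0))
  simp only [if_true] at e1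
  have e3 : f u = f u0 := by
    by_contra hh
    simp only [hh, if_false] at e2
    exact mul_ne_zero (left_ne_zero_of_mul (by rw [e1]; exact one_ne_zero)) (f3 u0 hu0) e2
  have e4 := f2 u u0 hu hu0 e3
  subst e4
  exact Int.eq_one_or_neg_one_of_mul_eq_one (by rw [mul_comm]; exact e1)

section clique
variable (N : Norm n m A B) {r r' : V} (h1 : tw m r r') (h2 : adj m r r')
include N h1 h2

theorem good_of_bound (hb : ∀ u x, tw m r u → tw m r x → -1 ≤ A u x ∧ A u x ≤ 1) :
    ∃ f, Good n m A r f := by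
  obtain ⟨f, f1, f2, f3⟩ := block_transversal N r
  have hun : ∀ u, tw m r u → A u (f u) = 1 ∨ A u (f u) = -1 := by
    intro u hu
    have := hb u (f u) hu (f1 u hu)
    have := f3 u hu
    omega
  refine ⟨f, f1, f2, fun u hu => Or.inl (hun u hu), ?_⟩
  intro u v hu hv h
  have hne : f u ≠ f v := fun e => h.1 (f2 u v hu hv e)
  by_cases hs : m (f u) (f v) = 1
  · rw [hs]; exact one_dvd _
  obtain ⟨a1, a2, -⟩ := edge_cut N h1 h2 (inT_of_dom N.hm h1 h2 (f1 u hu).1)
    (inT_of_dom N.hm h1 h2 (f1 v hv).1) hne hs (Or.inl (f1 v hv))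
  have b1 := a1 u hu.1
  have b2 := a2 u hu.1
  have b3 := hb u (f v) hu (f1 v hv)
  have b4 := hun u hu
  have b5 : A u (f v) = 0 := by omega
  apply dvd_of_unit_minor N h hne
  rw [b5]
  rcases b4 with b4 | b4 <;> rcases hun v hv with b6 | b6 <;> simp [b4, b6]

theorem bound_tri {x v w : V} (hx : tw m r x) (hv : inT m r v) (hw : inT m r w)
    (hC : tw m r v ∨ tw m r w) (e1 : x ≠ v) (e2 : x ≠ w) (e3 : v ≠ w)
    (b1 : m x v ≠ 1) (b2 : m x w ≠ 1) (b3 : m v w ≠ 1) (u : V) (hu : dom m r u) :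
    -1 ≤ A u x ∧ A u x ≤ 1 := by
  have hxT := inT_of_dom N.hm h1 h2 hx.1
  have s1 := star_cut N h1 h2 hxT hw hv e1 e3.symm e2 b1 (by rw [N.hm]; exact b3)
    (hC.imp_right fun h => ⟨hx, h⟩) u hu
  have s2 := star_cut N h1 h2 hxT hv hw e2 e3 e1 b2 b3
    (hC.symm.imp_right fun h => ⟨hx, h⟩) u hu
  omega

theorem bound_quad {x p v w : V} (hx : tw m r x) (hp : inT m r p) (hv : inT m r v)
    (hw : inT m r w) (hC : tw m r p ∨ (tw m r v ∧ tw m r w)) (hC' : tw m r v ∨ tw m r p)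
    (e1 : x ≠ p) (e2 : x ≠ v) (e3 : x ≠ w) (e4 : p ≠ v) (e5 : p ≠ w) (e6 : v ≠ w)
    (b1 : m x v ≠ 1) (b2 : m x w ≠ 1) (b3 : m p v ≠ 1) (b4 : m p w ≠ 1) (u : V)
    (hu : dom m r u) : -1 ≤ A u x ∧ A u x ≤ 1 := by
  have hxT := inT_of_dom N.hm h1 h2 hx.1
  have s1 := star_cut N h1 h2 hv hw hp e4.symm e5.symm e6 (by rw [N.hm]; exact b3)
    (by rw [N.hm]; exact b4) hC u hu
  have s2 := star_cut N h1 h2 hxT hp hv e2 e4 e1 b1 b3 (hC'.imp_right fun h => ⟨hx, h⟩) u hu
  have s3 := (edge_cut N h1 h2 hxT hw e3 b2 (Or.inr hx)).1 u hu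
  omega

theorem small_big {x p q : V} (hp : inT m r p) (hq : inT m r q) (hC : tw m r p ∨ tw m r q)
    (e1 : x ≠ p) (e2 : x ≠ q) (e3 : p ≠ q) (hs : m x p = 1) : m x q ≠ 1 := by
  intro h
  have hadj : adj m p q := by
    rcases hC with h | h
    · exact (cl_adj N.hm h1 h2 h.1 hq).resolve_left e3.symm
    · exact adj_symm N.hm ((cl_adj N.hm h1 h2 h.1 hp).resolve_left e3)
  rcases N.hT x p q hadj hs h with h | h
  · exact e1 h
  · exact e2 h

theorem bound_four {x p q s : V} (hx : tw m r x) (hp : tw m r p) (hq : tw m r q)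
    (hs : inT m r s) (e1 : x ≠ p) (e2 : x ≠ q) (e3 : x ≠ s) (e4 : p ≠ q) (e5 : p ≠ s)
    (e6 : q ≠ s) (u : V) (hu : dom m r u) : -1 ≤ A u x ∧ A u x ≤ 1 := by
  have hxT := inT_of_dom N.hm h1 h2 hx.1
  have hpT := inT_of_dom N.hm h1 h2 hp.1
  have hqT := inT_of_dom N.hm h1 h2 hq.1
  have sb := @small_big V _ _ n m A B N r r' h1 h2
  by_cases c1 : m x p = 1
  · have c1' : m p x = 1 := by rw [N.hm]; exact c1
    exact bound_quad N h1 h2 hx hpT hqT hs (Or.inl hp) (Or.inl hq) e1 e2 e3 e4 e5 e6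
      (sb hpT hqT (Or.inl hp) e1 e2 e4 c1) (sb hpT hs (Or.inl hp) e1 e3 e5 c1)
      (sb hxT hqT (Or.inl hx) e1.symm e4 e2 c1') (sb hxT hs (Or.inl hx) e1.symm e5 e3 c1') u hu
  by_cases c2 : m x q = 1
  · have c2' : m q x = 1 := by rw [N.hm]; exact c2
    exact bound_quad N h1 h2 hx hqT hpT hs (Or.inl hq) (Or.inl hp) e2 e1 e3 e4.symm e6 e5
      c1 (sb hqT hs (Or.inl hq) e2 e3 e6 c2)
      (sb hxT hpT (Or.inl hx) e2.symm e4.symm e1 c2') (sb hxT hs (Or.inl hx) e2.symm e6 e3 c2')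
      u hu
  by_cases c3 : m x s = 1
  · have c3' : m s x = 1 := by rw [N.hm]; exact c3
    exact bound_quad N h1 h2 hx hs hpT hqT (Or.inr ⟨hp, hq⟩) (Or.inl hp) e3 e1 e2 e5.symm e6.symm
      e4 c1 c2 (sb hxT hpT (Or.inl hx) e3.symm e5.symm e1 c3')
      (sb hxT hqT (Or.inl hx) e3.symm e6.symm e2 c3') u hu
  by_cases c4 : m p q = 1
  · exact bound_tri N h1 h2 hx hpT hs (Or.inl hp) e1 e3 e5 c1 c3
      (sb hqT hs (Or.inl hq) e4 e5 e6 c4) u hu
  · exact bound_tri N h1 h2 hx hpT hqT (Or.inl hp) e1 e2 e4 c1 c2 c4 u hu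

end clique

theorem two_det (N : Norm n m A B) {a b : V} (h1 : tw m a b) (h2 : adj m a b)
    (hC : ∀ u, tw m a u → u = a ∨ u = b) :
    A a a * A b b - A a b * A b a = 1 ∨ A a a * A b b - A a b * A b a = -1 := by
  have key : ∀ u v, tw m a u → tw m a v →
      A u a * B a v + A u b * B b v = if u = v then 1 else 0 := by
    intro u v hu hv
    rw [← recover1 N, ← Finset.sum_pair (f := fun z => A u z * B z v) h2.1]
    apply Finset.sum_subset (Finset.subset_univ _)
    intro x _ hx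
    by_contra hh
    apply hx
    have := hC x ⟨dom_trans N.hm hu.1 (N.triA _ _ (left_ne_zero_of_mul hh)),
      dom_trans N.hm (N.triB _ _ (right_ne_zero_of_mul hh)) hv.2⟩
    simpa using this
  have e1 := key a a (tw_refl _ _) (tw_refl _ _)
  have e2 := key a b (tw_refl _ _) h1
  have e3 := key b a h1 (tw_refl _ _)
  have e4 := key b b h1 h1
  simp only [h2.1, h2.1.symm, if_true, if_false] at e1 e2 e3 e4
  apply Int.eq_one_or_neg_one_of_mul_eq_one (v := B a a * B b b - B a b * B b a)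
  have : (A a a * A b b - A a b * A b a) * (B a a * B b b - B a b * B b a) =
      (A a a * B a a + A a b * B b a) * (A b a * B a b + A b b * B b b) -
        (A a a * B a b + A a b * B b b) * (A b a * B a a + A b b * B b a) := by ring
  rw [this, e1, e2, e3, e4]; ring

theorem good_two (N : Norm n m A B) {a b : V} (h1 : tw m a b) (h2 : adj m a b)
    (hC : ∀ u, tw m a u → u = a ∨ u = b)
    (h : (Alt n m A a a ∧ Alt n m A b b) ∨ (Alt n m A a b ∧ Alt n m A b a)) :
    ∃ f, Good n m A a f := by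
  have hd := two_det N h1 h2 hC
  have hdv : m a b ∣ n a b := dvd_of_unit_minor N h2 h2.1 hd
  have hne := h2.1
  rcases h with h | h
  · refine ⟨id, fun u hu => hu, fun u v _ _ h => h, ?_, ?_⟩
    · intro u hu
      rcases hC u hu with rfl | rfl
      · exact h.1
      · exact h.2
    · intro u v hu hv huv
      rcases hC u hu with rfl | rfl <;> rcases hC v hv with rfl | rfl
      · exact absurd rfl huv.1
      · exact hdv
      · simp only [id]; rw [N.hm, N.hn]; exact hdv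
      · exact absurd rfl huv.1
  · refine ⟨fun u => if u = a then b else a, ?_, ?_, ?_, ?_⟩
    · intro u _
      by_cases hu : u = a
      · simp only [hu, if_true]; exact h1
      · simp only [hu, if_false]; exact tw_refl _ _
    · intro u v hu hv
      rcases hC u hu with rfl | rfl <;> rcases hC v hv with rfl | rfl <;> simp [hne, hne.symm]
    · intro u hu
      rcases hC u hu with rfl | rfl
      · simpa using h.1
      · simpa [hne.symm] using h.2
    · intro u v hu hv huv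
      rcases hC u hu with rfl | rfl <;> rcases hC v hv with rfl | rfl
      · exact absurd rfl huv.1
      · simp only [hne.symm, if_true, if_false]; rw [N.hm]; exact hdv
      · simp only [hne.symm, if_true, if_false]; rw [N.hn]; exact hdv
      · exact absurd rfl huv.1

theorem units_of_bound (a b c d : ℤ) (ha : -2 ≤ a ∧ a ≤ 2) (hb : -2 ≤ b ∧ b ≤ 2)
    (hc : -2 ≤ c ∧ c ≤ 2) (hd : -2 ≤ d ∧ d ≤ 2) (h : a * d - b * c = 1 ∨ a * d - b * c = -1) :
    ((a = 1 ∨ a = -1) ∧ (d = 1 ∨ d = -1)) ∨ ((b = 1 ∨ b = -1) ∧ (c = 1 ∨ c = -1)) := by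
  obtain ⟨ha1, ha2⟩ := ha
  obtain ⟨hb1, hb2⟩ := hb
  interval_cases a <;> interval_cases b <;> omega

theorem good_two_of_bound (N : Norm n m A B) {a b : V} (h1 : tw m a b) (h2 : adj m a b)
    (hC : ∀ u, tw m a u → u = a ∨ u = b)
    (ha : ∀ u, dom m a u → -2 ≤ A u a ∧ A u a ≤ 2) (hb : ∀ u, dom m a u → -2 ≤ A u b ∧ A u b ≤ 2) :
    ∃ f, Good n m A a f := by
  apply good_two N h1 h2 hC
  rcases units_of_bound _ _ _ _ (ha a (dom_refl _ _)) (hb a (dom_refl _ _)) (ha b h1.1)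
    (hb b h1.1) (two_det N h1 h2 hC) with h | h
  · exact Or.inl ⟨Or.inl h.1, Or.inl h.2⟩
  · exact Or.inr ⟨Or.inl h.1, Or.inl h.2⟩

theorem good_two_plain (N : Norm n m A B) {a b : V} (h1 : tw m a b) (h2 : adj m a b)
    (hC : ∀ u, tw m a u → u = a ∨ u = b)
    (hp : ∀ y, adj m a y → y ≠ b → m a y = 1) : ∃ f, Good n m A a f := by
  have hm := N.hm
  have hL : ∀ u v z, tw m a u → adj m u v → ¬ tw m u v → tw m v z → adj m a z ∧ z ≠ b := by
    intro u v z hu e1 e2 e3
    obtain ⟨e4, e5⟩ := adj_out N (tw_symm hu) e1 e2 e3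
    refine ⟨e4, ?_⟩
    rintro rfl
    exact e5 (tw_trans hm (tw_symm hu) h1)
  have halt : ∀ u, tw m a u → Alt n m A u a := by
    intro u hu
    right
    intro v z e1 e2 e3
    obtain ⟨e4, e5⟩ := hL u v z hu e1 e2 e3
    rw [hp z e4 e5]; exact one_dvd _
  suffices h : ∃ t, tw m a t ∧ Alt n m A t b by
    obtain ⟨t, ht, hh⟩ := h
    apply good_two N h1 h2 hC
    rcases hC t ht with rfl | rfl
    · exact Or.inr ⟨hh, halt b h1⟩
    · exact Or.inl ⟨halt a (tw_refl _ _), hh⟩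
  by_cases hex : ∃ y, adj m a y ∧ y ≠ b
  swap
  · refine ⟨a, tw_refl _ _, Or.inr ?_⟩
    intro v z e1 e2 e3
    exact absurd ⟨z, hL a v z (tw_refl _ _) e1 e2 e3⟩ hex
  obtain ⟨y, hy, hyb⟩ := hex
  have hbig : m b y ≠ 1 := by
    intro h
    rcases N.hT y a b h2 (by rw [hm]; exact hp y hy hyb) (by rw [hm]; exact h) with e | e
    · exact hy.1 e.symm
    · exact hyb e
  obtain ⟨a1, -, a3, v, w, hv, hw, a4, a5⟩ := edge_cut N h1 h2 (Or.inr h2) (Or.inr hy) hyb.symm
    hbig (Or.inr h1)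
  by_cases h0 : A a y = 0 ∧ A b y = 0
  · have b1 := a1 a (dom_refl _ _)
    have b2 := a1 b h1.1
    have hd := two_det N h1 h2 hC
    by_cases h3 : A a b = 0
    · refine ⟨b, h1, Or.inl ?_⟩
      have : A b b ≠ 0 := by
        intro h4; rw [h3, h4] at hd; simp at hd
      omega
    · exact ⟨a, tw_refl _ _, Or.inl (by omega)⟩
  have hdom : dom m a y := by
    by_cases h3 : A a y = 0
    · exact dom_trans hm h1.1 (N.triA b y fun h4 => h0 ⟨h3, h4⟩)
    · exact N.triA a y h3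
  have huniq : ∀ z, adj m a z → z ≠ b → z = y := by
    intro z e1 e2
    rcases hdom z e1 with e | e
    · exact e
    · rcases N.hT a y z e (hp y hy hyb) (hp z e1 e2) with e3 | e3
      · exact absurd e3 hy.1
      · exact absurd e3 e1.1
  have hnt : ¬ tw m a y := by
    intro h
    rcases hC y h with e | e
    · exact hy.1 e.symm
    · exact hyb e
  have hyb0 : A y b = 0 := by
    by_contra h
    exact hnt ⟨hdom, dom_trans hm (N.triA _ _ h) h1.2⟩
  have hyy : A y y ≠ 0 := by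
    have e := recover1 N y y
    simp only [if_true] at e
    obtain ⟨z, _, hz⟩ := Finset.exists_ne_zero_of_sum_ne_zero (by rw [e]; exact one_ne_zero)
    have hz' : tw m y z :=
      ⟨N.triA _ _ (left_ne_zero_of_mul hz), N.triB _ _ (right_ne_zero_of_mul hz)⟩
    obtain ⟨e4, e5⟩ := hL a y z (tw_refl _ _) hy hnt hz'
    have := huniq z e4 e5
    subst this
    exact left_ne_zero_of_mul hz
  have b1 := a1 y hdom
  obtain ⟨t, ht, hty⟩ : ∃ t, inT m a t ∧ (A t b - A t y) + (A y b - A y y) = 0 := by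
    by_cases h3 : A y y = 1
    · exact ⟨v, hv, by omega⟩
    · exact ⟨w, hw, by omega⟩
  have htC : tw m a t := by
    rcases ht with e | e
    · rw [e]; exact tw_refl _ _
    · by_cases e2 : t = b
      · rw [e2]; exact h1
      · have := huniq t e e2
        subst this
        omega
  refine ⟨t, htC, Or.inr ?_⟩
  intro v' z e1 e2 e3
  obtain ⟨e4, e5⟩ := hL t v' z htC e1 e2 e3
  obtain ⟨e6, e7⟩ := hL t v' v' htC e1 e2 (tw_refl _ _)
  rw [huniq z e4 e5, huniq v' e6 e7]
  exact a3 t y htC.1 hdom hty (by omega)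

theorem good_pair (N : Norm n m A B) {a b : V} (h1 : tw m a b) (h2 : adj m a b)
    (hC : ∀ u, tw m a u → u = a ∨ u = b) : ∃ f, Good n m A a f := by
  have hm := N.hm
  by_cases hp : ∀ y, adj m a y → y ≠ b → m a y = 1
  · exact good_two_plain N h1 h2 hC hp
  by_cases hq : ∀ y, adj m b y → y ≠ a → m b y = 1
  · obtain ⟨f, hf⟩ := good_two_plain N (tw_symm h1) (adj_symm hm h2)
      (fun u hu => (hC u (tw_trans hm h1 hu)).symm) hq
    exact ⟨f, hf.transport N h1⟩
  push Not at hp hq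
  obtain ⟨y, hy, hyb, hay⟩ := hp
  obtain ⟨z, hz, hza, hbz⟩ := hq
  have haT : inT m a a := Or.inl rfl
  have hbT : inT m a b := Or.inr h2
  have hyT : inT m a y := Or.inr hy
  have hzT : inT m a z := Or.inr (tw_adj (tw_symm h1) hz hza)
  have sb := @small_big V _ _ n m A B N a b h1 h2
  have ta := tw_refl m a
  by_cases hab : m a b = 1
  · have hby : m b y ≠ 1 :=
      sb haT hyT (Or.inl ta) h2.1.symm hyb.symm hy.1 (by rw [hm]; exact hab)
    have s1 := star_cut N h1 h2 haT hbT hyT hy.1 hyb.symm h2.1 hay hby (Or.inr ⟨ta, h1⟩)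
    have s2 := (edge_cut N h1 h2 haT hyT hy.1 hay (Or.inr ta)).1
    have s3 := (edge_cut N h1 h2 hbT hyT hyb.symm hby (Or.inr h1)).1
    apply good_two_of_bound N h1 h2 hC
    · intro u hu
      have := s1 u hu; have := s3 u hu; omega
    · intro u hu
      have := s1 u hu; have := s2 u hu; omega
  have hba : m b a ≠ 1 := by rw [hm]; exact hab
  apply good_two_of_bound N h1 h2 hC
  · intro u hu
    have s1 := star_cut N h1 h2 haT hzT hbT h2.1 hz.1.symm hza.symm hab (by rw [hm]; exact hbz)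
      (Or.inl h1) u hu
    have s2 := (edge_cut N h1 h2 hbT hzT hz.1 hbz (Or.inr h1)).1 u hu
    omega
  · intro u hu
    have s1 := star_cut N h1 h2 hbT hyT haT h2.1.symm hy.1.symm hyb.symm hba
      (by rw [hm]; exact hay) (Or.inl ta) u hu
    have s2 := (edge_cut N h1 h2 haT hyT hy.1 hay (Or.inr ta)).1 u hu
    omega

end Pool.Agent.Lib.MP_1b8ce0_al
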