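import Pool.Agent.Lib.MP_1b8ce0_al.Comb4

namespace Pool.Agent.Lib.MP_1b8ce0_al

open Finset

variable {V : Type} [Fintype V] [DecidableEq V] {n m : V → V → ℕ} {A B : Matrix V V ℤ}

theorem good_three_aux (N : Norm n m A B) {r a b c p w q : V}
    (ha : tw m r a) (hb : tw m r b) (hc : tw m r c) (e1 : a ≠ b) (e2 : a ≠ c) (e3 : b ≠ c)
    (hT : ∀ z, inT m r z → tw m r z) (hac : m a c = 1)
    (hC : ∀ u, tw m r u → u = p ∨ u = w ∨ u = q) (d1 : p ≠ w) (d2 : p ≠ q) (d3 : w ≠ q)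
    (k1 : m a b ∣ n p w) (k2 : m c b ∣ n q w) : ∃ f, Good n m A r f := by
  have hm := N.hm
  refine ⟨fun u => if u = p then a else if u = w then b else c, ?_, ?_, ?_, ?_⟩
  · intro u _
    dsimp only
    split_ifs <;> assumption
  · intro u v hu hv
    rcases hC u hu with rfl | rfl | rfl <;> rcases hC v hv with rfl | rfl | rfl <;>
      simp [d1, d2, d3, d1.symm, d2.symm, d3.symm, e1, e2, e3, e1.symm, e2.symm, e3.symm]
  · intro u hu
    right
    intro v z h1 h2 _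
    exact absurd (tw_trans hm (tw_symm hu) (hT v (hu.2 v h1))) h2
  · intro u v hu hv huv
    have k1' : m b a ∣ n w p := by rw [hm, N.hn]; exact k1
    have k2' : m b c ∣ n w q := by rw [hm, N.hn]; exact k2
    have hca : m c a = 1 := by rw [hm]; exact hac
    rcases hC u hu with rfl | rfl | rfl <;> rcases hC v hv with rfl | rfl | rfl <;>
      first
      | exact absurd rfl huv.1
      | simp [d1, d2, d3, d1.symm, d2.symm, d3.symm, k1, k2, k1', k2', hac, hca]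

theorem three_arith (l1 l2 l3 k1 k2 k3 : ℤ) (h1 : -1 ≤ l1 ∧ l1 ≤ 1) (h2 : -1 ≤ l2 ∧ l2 ≤ 1)
    (h3 : -1 ≤ l3 ∧ l3 ≤ 1) (g1 : -1 ≤ k1 ∧ k1 ≤ 1) (g2 : -1 ≤ k2 ∧ k2 ≤ 1)
    (g3 : -1 ≤ k3 ∧ k3 ≤ 1) (p1 : l1 = 1 ∨ l2 = 1 ∨ l3 = 1) (p2 : l1 = -1 ∨ l2 = -1 ∨ l3 = -1)
    (q1 : k1 = 1 ∨ k2 = 1 ∨ k3 = 1) (q2 : k1 = -1 ∨ k2 = -1 ∨ k3 = -1)
    (n1 : ¬ (l1 = k1 ∧ l2 = k2 ∧ l3 = k3)) (n2 : ¬ (l1 = -k1 ∧ l2 = -k2 ∧ l3 = -k3)) :
    ((l1 + l2 = 0 ∧ l1 ≠ 0) ∧ (k3 + k2 = 0 ∧ k3 ≠ 0)) ∨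
    ((l3 + l2 = 0 ∧ l3 ≠ 0) ∧ (k1 + k2 = 0 ∧ k1 ≠ 0)) ∨
    ((l2 + l1 = 0 ∧ l2 ≠ 0) ∧ (k3 + k1 = 0 ∧ k3 ≠ 0)) ∨
    ((l3 + l1 = 0 ∧ l3 ≠ 0) ∧ (k2 + k1 = 0 ∧ k2 ≠ 0)) ∨
    ((l1 + l3 = 0 ∧ l1 ≠ 0) ∧ (k2 + k3 = 0 ∧ k2 ≠ 0)) ∨
    ((l2 + l3 = 0 ∧ l2 ≠ 0) ∧ (k1 + k3 = 0 ∧ k1 ≠ 0)) := by
  obtain ⟨_, _⟩ := h1
  obtain ⟨_, _⟩ := h2
  obtain ⟨_, _⟩ := h3
  obtain ⟨_, _⟩ := g1
  obtain ⟨_, _⟩ := g2
  obtain ⟨_, _⟩ := g3
  interval_cases l1 <;> interval_cases l2 <;> interval_cases l3 <;> interval_cases k1 <;>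
    interval_cases k2 <;> interval_cases k3 <;> simp_all

theorem good_three (N : Norm n m A B) {r r' a b c : V} (h1 : tw m r r') (h2 : adj m r r')
    (ha : tw m r a) (hb : tw m r b) (hc : tw m r c) (e1 : a ≠ b) (e2 : a ≠ c) (e3 : b ≠ c)
    (hT : ∀ z, inT m r z → z = a ∨ z = b ∨ z = c) (hac : m a c = 1) :
    ∃ f, Good n m A r f := by
  have hm := N.hm
  have haT := inT_of_dom hm h1 h2 ha.1
  have hbT := inT_of_dom hm h1 h2 hb.1
  have hcT := inT_of_dom hm h1 h2 hc.1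
  have hT' : ∀ z, inT m r z → tw m r z := by
    intro z hz
    rcases hT z hz with rfl | rfl | rfl <;> assumption
  have hC : ∀ u, tw m r u → u = a ∨ u = b ∨ u = c :=
    fun u hu => hT u (inT_of_dom hm h1 h2 hu.1)
  have hab : m a b ≠ 1 := small_big N h1 h2 hcT hbT (Or.inl hc) e2 e1 e3.symm hac
  have hcb : m c b ≠ 1 :=
    small_big N h1 h2 haT hbT (Or.inl ha) e2.symm e3.symm e1 (by rw [hm]; exact hac)
  obtain ⟨a1, -, a3, v, w, hv, hw, a4, a5⟩ := edge_cut N h1 h2 haT hbT e1 hab (Or.inl hb)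
  obtain ⟨b1, -, b3, v', w', hv', hw', b4, b5⟩ := edge_cut N h1 h2 hcT hbT e3.symm hcb (Or.inl hb)
  have hsum : ∀ t, B a a * A a t + B a b * A b t + B a c * A c t = if a = t then 1 else 0 := by
    intro t
    rw [← recoverB N]
    have : ∑ z ∈ ({a, b, c} : Finset V), B a z * A z t =
        B a a * A a t + B a b * A b t + B a c * A c t := by
      rw [Finset.sum_insert (by simp [e1, e2]), Finset.sum_pair e3]; ring
    rw [← this]
    apply Finset.sum_subset (Finset.subset_univ _)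
    intro x _ hx
    by_contra hh
    apply hx
    have := hT x (inT_up hm h1 h2 haT (N.triB _ _ (left_ne_zero_of_mul hh)))
    simpa using this
  have s1 := hsum a
  have s2 := hsum b
  have s3 := hsum c
  simp only [e1, e2, if_true, if_false] at s1 s2 s3
  have key := three_arith (A a a - A a b) (A b a - A b b) (A c a - A c b)
    (A a c - A a b) (A b c - A b b) (A c c - A c b) (a1 a ha.1) (a1 b hb.1) (a1 c hc.1)
    (b1 a ha.1) (b1 b hb.1) (b1 c hc.1)
    (by rcases hT v hv with rfl | rfl | rfl <;> simp [a4])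
    (by rcases hT w hw with rfl | rfl | rfl <;> simp [a5])
    (by rcases hT v' hv' with rfl | rfl | rfl <;> simp [b4])
    (by rcases hT w' hw' with rfl | rfl | rfl <;> simp [b5])
    (by
      rintro ⟨t1, t2, t3⟩
      have u1 : A a a = A a c := by omega
      have u2 : A b a = A b c := by omega
      have u3 : A c a = A c c := by omega
      rw [u1, u2, u3, s3] at s1
      exact zero_ne_one s1)
    (by
      rintro ⟨t1, t2, t3⟩
      have u1 : A a a = 2 * A a b - A a c := by omega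
      have u2 : A b a = 2 * A b b - A b c := by omega
      have u3 : A c a = 2 * A c b - A c c := by omega
      rw [u1, u2, u3] at s1
      have : (1 : ℤ) = 0 := by linear_combination -s1 + 2 * s2 - s3
      exact one_ne_zero this)
  have aux := fun p w q => @good_three_aux V _ _ n m A B N r a b c p w q ha hb hc e1 e2 e3 hT' hac
  rcases key with h | h | h | h | h | h
  · exact aux a b c hC e1 e2 e3 (a3 a b ha.1 hb.1 h.1.1 h.1.2) (b3 c b hc.1 hb.1 h.2.1 h.2.2)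
  · exact aux c b a (fun u hu => by have := hC u hu; tauto) e3.symm e2.symm e1.symm
      (a3 c b hc.1 hb.1 h.1.1 h.1.2) (b3 a b ha.1 hb.1 h.2.1 h.2.2)
  · exact aux b a c (fun u hu => by have := hC u hu; tauto) e1.symm e3 e2
      (a3 b a hb.1 ha.1 h.1.1 h.1.2) (b3 c a hc.1 ha.1 h.2.1 h.2.2)
  · exact aux c a b (fun u hu => by have := hC u hu; tauto) e2.symm e3.symm e1
      (a3 c a hc.1 ha.1 h.1.1 h.1.2) (b3 b a hb.1 ha.1 h.2.1 h.2.2)
  · exact aux a c b (fun u hu => by have := hC u hu; tauto) e2 e1 e3.symm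
      (a3 a c ha.1 hc.1 h.1.1 h.1.2) (b3 b c hb.1 hc.1 h.2.1 h.2.2)
  · exact aux b c a (fun u hu => by have := hC u hu; tauto) e3 e1.symm e2.symm
      (a3 b c hb.1 hc.1 h.1.1 h.1.2) (b3 a c ha.1 hc.1 h.2.1 h.2.2)

theorem exists_good (N : Norm n m A B) (r : V) : ∃ f, Good n m A r f := by
  have hm := N.hm
  by_cases hind : ∀ u, tw m r u → ∀ w, tw m r w → ¬ adj m u w
  · exact good_indep N r hind
  push Not at hind
  obtain ⟨r', h1, h2⟩ : ∃ r', tw m r r' ∧ adj m r r' := by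
    obtain ⟨u, hu, w, hw, huw⟩ := hind
    by_cases e : w = r
    · subst e; exact ⟨u, hu, adj_symm hm huw⟩
    · exact ⟨w, hw, tw_adj (tw_symm hu) huw e⟩
  by_cases h3 : ∀ u, tw m r u → u = r ∨ u = r'
  · exact good_pair N h1 h2 h3
  push Not at h3
  obtain ⟨t, ht, e2, e3⟩ := h3
  have e1 := h2.1
  have h0 := tw_refl m r
  have hrT : inT m r r := Or.inl rfl
  have hr'T : inT m r r' := Or.inr h2
  have htT := inT_of_dom hm h1 h2 ht.1
  by_cases h4 : ∀ z, inT m r z → z = r ∨ z = r' ∨ z = t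
  · by_cases c1 : m r r' = 1
    · exact good_three N h1 h2 h0 ht h1 e2.symm e1 e3 (fun z hz => by have := h4 z hz; tauto) c1
    by_cases c2 : m r t = 1
    · exact good_three N h1 h2 h0 h1 ht e1 e2.symm e3.symm h4 c2
    by_cases c3 : m r' t = 1
    · exact good_three N h1 h2 h1 h0 ht e1.symm e3.symm e2.symm
        (fun z hz => by have := h4 z hz; tauto) c3
    apply good_of_bound N h1 h2
    intro u x hu hx
    rcases h4 x (inT_of_dom hm h1 h2 hx.1) with rfl | rfl | rfl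
    · exact bound_tri N h1 h2 hx hr'T htT (Or.inl h1) e1 e2.symm e3.symm c1 c2 c3 u hu.1
    · exact bound_tri N h1 h2 hx hrT htT (Or.inl h0) e1.symm e3.symm e2.symm
        (by rw [hm]; exact c1) c3 c2 u hu.1
    · exact bound_tri N h1 h2 hx hrT hr'T (Or.inl h0) e2 e3 e1
        (by rw [hm]; exact c2) (by rw [hm]; exact c3) c1 u hu.1
  push Not at h4
  obtain ⟨s, hs, f1, f2, f3⟩ := h4
  apply good_of_bound N h1 h2
  intro u x hu hx
  by_cases c1 : x = r
  · subst c1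
    exact bound_four N h1 h2 hx h1 ht hs e1 e2.symm f1.symm e3.symm f2.symm f3.symm u hu.1
  by_cases c2 : x = r'
  · subst c2
    exact bound_four N h1 h2 hx h0 ht hs e1.symm e3.symm f2.symm e2.symm f1.symm f3.symm u hu.1
  by_cases c3 : x = t
  · subst c3
    exact bound_four N h1 h2 hx h0 h1 hs e2 e3 f3.symm e1 f1.symm f2.symm u hu.1
  exact bound_four N h1 h2 hx h0 h1 htT c1 c2 c3 e1 e2.symm e3.symm u hu.1

theorem exists_perm (N : Norm n m A B) :
    ∃ π : V ≃ V, ∀ u v, (adj n u v ↔ adj m (π u) (π v)) ∧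
      (adj n u v → m (π u) (π v) ∣ n u v) := by
  have hm := N.hm
  let s : Setoid V := ⟨tw m, tw_refl m, tw_symm, tw_trans hm⟩
  let rep : V → V := fun u => (Quotient.mk s u).out
  have hrep : ∀ u, tw m (rep u) u := fun u => Quotient.mk_out (s := s) u
  have hrep2 : ∀ u v, tw m u v → rep u = rep v := by
    intro u v h
    simp only [rep]
    rw [Quotient.sound (s := s) h]
  choose F hF using exists_good N
  let p : V → V := fun u => F (rep u) u
  have hp : ∀ u, tw m u (p u) :=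
    fun u => tw_trans hm (tw_symm (hrep u)) ((hF (rep u)).1 u (hrep u))
  have hinj : Function.Injective p := by
    intro u v h
    have h1 : tw m u v := tw_trans hm (hp u) (by rw [h]; exact tw_symm (hp v))
    have h2 := hrep2 u v h1
    apply (hF (rep u)).2.1 u v (hrep u) (by rw [h2]; exact hrep v)
    simp only [p] at h
    rw [h, h2]
  refine ⟨Equiv.ofBijective p (Finite.injective_iff_bijective.1 hinj), fun u v => ⟨?_, ?_⟩⟩
  · simp only [Equiv.ofBijective_apply]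
    rw [N.hadj]
    exact ⟨fun h => adj_of_dom hm (hp u).1 (hp v).1 h (hinj.ne h.1),
      fun h => adj_of_dom hm (hp u).2 (hp v).2 h fun e => h.1 (by rw [e])⟩
  · simp only [Equiv.ofBijective_apply]
    intro h
    rw [N.hadj] at h
    by_cases ht : tw m u v
    · have h2 := hrep2 u v ht
      have := (hF (rep u)).2.2.2 u v (hrep u) (by rw [h2]; exact hrep v) h
      simp only [p]
      rw [← h2]
      exact this
    rcases (hF (rep u)).2.2.1 u (hrep u) with a1 | a1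
    swap
    · exact a1 v (p v) h ht (hp v)
    rcases (hF (rep v)).2.2.1 v (hrep v) with a2 | a2
    swap
    · rw [hm, N.hn]
      exact a2 u (p u) (adj_symm hm h) (fun e => ht (tw_symm e)) (hp u)
    apply dvd_of_unit_minor N h (hinj.ne h.1)
    have h0 : A u (p v) * A v (p u) = 0 := by
      by_contra hh
      exact ht ⟨dom_trans hm (N.triA _ _ (left_ne_zero_of_mul hh)) (hp v).2,
        dom_trans hm (N.triA _ _ (right_ne_zero_of_mul hh)) (hp u).2⟩
    rw [h0]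
    change A u (p u) = 1 ∨ A u (p u) = -1 at a1
    change A v (p v) = 1 ∨ A v (p v) = -1 at a2
    rcases a1 with a1 | a1 <;> rcases a2 with a2 | a2 <;> simp [a1, a2]

end Pool.Agent.Lib.MP_1b8ce0_al
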