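import Mathlib

namespace Pool.Agent.Lib.MP_1b8ce0_al

/-- The alternating word `s t s ...` of length `k`. -/
def alt {G : Type} [Monoid G] (s t : G) (k : ℕ) : G :=
  ((List.range k).map fun i => if i % 2 = 0 then s else t).prod

/-- The Artin relators of a Coxeter matrix (entry `0` stands for infinity). -/
def artinRels {S : Type} (M : CoxeterMatrix S) : Set (FreeGroup S) :=
  {r | ∃ s t, s ≠ t ∧ M s t ≠ 0 ∧
    r = alt (FreeGroup.of s) (FreeGroup.of t) (M s t) *
      (alt (FreeGroup.of t) (FreeGroup.of s) (M s t))⁻¹}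

/-- The Artin group of a Coxeter matrix. -/
def ArtinGroup {S : Type} (M : CoxeterMatrix S) : Type := PresentedGroup (artinRels M)

instance artinGroupInst {S : Type} (M : CoxeterMatrix S) : Group (ArtinGroup M) :=
  inferInstanceAs (Group (PresentedGroup (artinRels M)))

/-- The two-dimensionality condition of the problem (`1 / 0 = 0` encodes `1 / infinity = 0`). -/
def TwoDim {S : Type} (M : CoxeterMatrix S) : Prop :=
  (∃ s t, s ≠ t ∧ M s t ≠ 0) ∧
    ∀ s t u, s ≠ t → t ≠ u → s ≠ u →
      1 / (M s t : ℚ) + 1 / (M t u : ℚ) + 1 / (M s u : ℚ) ≤ 1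

/-- All finite off-diagonal entries are even. -/
def IsEven {S : Type} (M : CoxeterMatrix S) : Prop := ∀ s t, s ≠ t → Even (M s t)

/-- The table of entries of a Coxeter matrix on `Fin n`. -/
def table {n : ℕ} (M : CoxeterMatrix (Fin n)) : List (List ℕ) :=
  List.ofFn fun i => List.ofFn fun j => M i j

end Pool.Agent.Lib.MP_1b8ce0_al
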