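import Pool.Agent.Lib.MP_1b8ce0_al.Defs

namespace Pool.Agent.Lib.MP_1b8ce0_al

open Finset

theorem alt_two_mul {G : Type} [Monoid G] (s t : G) (k : ℕ) :
    alt s t (2 * k) = (s * t) ^ k := by
  induction k with
  | zero => simp [alt]
  | succ k ih =>
    have h1 : 2 * (k + 1) = (2 * k + 1) + 1 := by ring
    have h2 : (2 * k) % 2 = 0 := by omega
    have h3 : ¬ (2 * k + 1) % 2 = 0 := by omega
    unfold alt at ih ⊢
    rw [h1, List.range_succ, List.range_succ, List.map_append, List.map_append, List.prod_append,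
      List.prod_append, ih, pow_succ]
    simp only [List.map_cons, List.map_nil, List.prod_cons, List.prod_nil, h2, h3, if_true,
      if_false, mul_one, mul_assoc]

theorem map_alt {G H : Type} [Monoid G] [Monoid H] (f : G →* H) (s t : G) (k : ℕ) :
    f (alt s t k) = alt (f s) (f t) k := by
  unfold alt
  rw [map_list_prod, List.map_map]
  congr 1
  apply List.map_congr_left
  intro i _
  by_cases h : i % 2 = 0 <;> simp [h]

/-- adjacency for a table of half labels -/
def adj {V : Type} (n : V → V → ℕ) (u v : V) : Prop := u ≠ v ∧ n u v ≠ 0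

/-- half labels -/
def hl {S : Type} (M : CoxeterMatrix S) (s t : S) : ℕ := M s t / 2

variable {S S' : Type}

theorem hl_symm (M : CoxeterMatrix S) (s t : S) : hl M s t = hl M t s := by
  unfold hl; rw [M.symmetric]

theorem two_mul_hl {M : CoxeterMatrix S} (he : IsEven M) {s t : S} (h : s ≠ t) :
    M s t = 2 * hl M s t := by
  obtain ⟨k, hk⟩ := he s t h
  unfold hl; omega

/-- the generator -/
def gen (M : CoxeterMatrix S) (s : S) : ArtinGroup M :=
  (PresentedGroup.of s : PresentedGroup (artinRels M))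

theorem hom_ext {M : CoxeterMatrix S} {H : Type} [Group H] {φ ψ : ArtinGroup M →* H}
    (h : ∀ s, φ (gen M s) = ψ (gen M s)) : φ = ψ :=
  PresentedGroup.ext (rels := artinRels M) h

theorem gen_alt (M : CoxeterMatrix S) {s t : S} (h : s ≠ t) (h0 : M s t ≠ 0) :
    alt (gen M s) (gen M t) (M s t) = alt (gen M t) (gen M s) (M s t) := by
  have h1 : (PresentedGroup.mk (artinRels M))
      (alt (FreeGroup.of s) (FreeGroup.of t) (M s t) *
        (alt (FreeGroup.of t) (FreeGroup.of s) (M s t))⁻¹) = 1 :=
    PresentedGroup.one_of_mem ⟨s, t, h, h0, rfl⟩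
  rw [map_mul, map_inv, map_alt, map_alt, mul_inv_eq_one] at h1
  exact h1

theorem exists_lift_alt (M : CoxeterMatrix S) {H : Type} [Group H] (f : S → H)
    (hf : ∀ s t, s ≠ t → M s t ≠ 0 → alt (f s) (f t) (M s t) = alt (f t) (f s) (M s t)) :
    ∃ φ : ArtinGroup M →* H, ∀ s, φ (gen M s) = f s := by
  have h : ∀ r ∈ artinRels M, FreeGroup.lift f r = 1 := by
    rintro r ⟨s, t, hst, h0, rfl⟩
    rw [map_mul, map_inv, map_alt, map_alt, mul_inv_eq_one]
    simpa using hf s t hst h0
  exact ⟨PresentedGroup.toGroup h, fun s => PresentedGroup.toGroup.of h⟩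

theorem gen_rel {M : CoxeterMatrix S} (he : IsEven M) {s t : S} (h : adj (hl M) s t) :
    (gen M s * gen M t) ^ hl M s t = (gen M t * gen M s) ^ hl M s t := by
  have h2 := two_mul_hl he h.1
  have h0 : M s t ≠ 0 := by have := h.2; omega
  have := gen_alt M h.1 h0
  rwa [h2, alt_two_mul, alt_two_mul] at this

theorem exists_lift {M : CoxeterMatrix S} (he : IsEven M) {H : Type} [Group H] (f : S → H)
    (hf : ∀ s t, adj (hl M) s t → (f s * f t) ^ hl M s t = (f t * f s) ^ hl M s t) :
    ∃ φ : ArtinGroup M →* H, ∀ s, φ (gen M s) = f s := by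
  apply exists_lift_alt
  intro s t hst h0
  have h2 := two_mul_hl he hst
  rw [h2, alt_two_mul, alt_two_mul]
  exact hf s t ⟨hst, by omega⟩

theorem exists_lift_comm {M : CoxeterMatrix S} (he : IsEven M) {H : Type} [CommGroup H]
    (f : S → H) : ∃ φ : ArtinGroup M →* H, ∀ s, φ (gen M s) = f s :=
  exists_lift he f fun s t _ => by rw [mul_comm]

variable [DecidableEq S] [DecidableEq S']

/-- exponent sum homomorphism -/
noncomputable def ex {M : CoxeterMatrix S} (he : IsEven M) (x : S) :
    ArtinGroup M →* Multiplicative ℤ :=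
  (exists_lift_comm he fun s => Multiplicative.ofAdd (if s = x then (1 : ℤ) else 0)).choose

theorem ex_gen {M : CoxeterMatrix S} (he : IsEven M) (x s : S) :
    ex he x (gen M s) = Multiplicative.ofAdd (if s = x then (1 : ℤ) else 0) :=
  (exists_lift_comm he fun s => Multiplicative.ofAdd (if s = x then (1 : ℤ) else 0)).choose_spec s

theorem hom_comm_apply [Fintype S] {M : CoxeterMatrix S} (he : IsEven M) {H : Type}
    [AddCommGroup H] (τ : ArtinGroup M →* Multiplicative H) (g : ArtinGroup M) :
    (τ g).toAdd = ∑ x, (ex he x g).toAdd • (τ (gen M x)).toAdd := by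
  let ψ : ArtinGroup M →* Multiplicative H :=
    { toFun := fun g => Multiplicative.ofAdd (∑ x, (ex he x g).toAdd • (τ (gen M x)).toAdd)
      map_one' := by simp
      map_mul' := by
        intro a b
        simp [add_smul, Finset.sum_add_distrib] }
  have : τ = ψ := by
    apply hom_ext
    intro s
    simp [ψ, ex_gen]
  have h2 := congrArg (fun φ : ArtinGroup M →* Multiplicative H => (φ g).toAdd) this
  simpa [ψ] using h2

/-- the abelianised matrix of a homomorphism -/
noncomputable def mat {M : CoxeterMatrix S} {M' : CoxeterMatrix S'} (he' : IsEven M')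
    (Φ : ArtinGroup M →* ArtinGroup M') : Matrix S S' ℤ :=
  fun u x => (ex he' x (Φ (gen M u))).toAdd

theorem mat_mul [Fintype S'] {M : CoxeterMatrix S} {M' : CoxeterMatrix S'} (he : IsEven M)
    (he' : IsEven M') (Φ : ArtinGroup M ≃* ArtinGroup M') :
    mat he' Φ.toMonoidHom * mat he Φ.symm.toMonoidHom = 1 := by
  ext u v
  have := hom_comm_apply he' ((ex he v).comp Φ.symm.toMonoidHom) (Φ (gen M u))
  simp only [MonoidHom.comp_apply, MulEquiv.toMonoidHom_eq_coe, MonoidHom.coe_coe,
    MulEquiv.symm_apply_apply, ex_gen, toAdd_ofAdd, smul_eq_mul] at this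
  rw [Matrix.mul_apply, Matrix.one_apply, this]
  rfl

/-- Heisenberg group -/
@[ext] structure Heis (R : Type) where
  a : R
  b : R
  c : R

instance {R : Type} [CommRing R] : Group (Heis R) where
  mul g h := ⟨g.a + h.a, g.b + h.b, g.c + h.c + g.a * h.b⟩
  one := ⟨0, 0, 0⟩
  inv g := ⟨-g.a, -g.b, -g.c + g.a * g.b⟩
  mul_assoc g h k := by
    apply Heis.ext
    · change g.a + h.a + k.a = g.a + (h.a + k.a); ring
    · change g.b + h.b + k.b = g.b + (h.b + k.b); ring
    · change g.c + h.c + g.a * h.b + k.c + (g.a + h.a) * k.b =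
        g.c + (h.c + k.c + h.a * k.b) + g.a * (h.b + k.b); ring
  one_mul g := by
    apply Heis.ext
    · change 0 + g.a = g.a; ring
    · change 0 + g.b = g.b; ring
    · change 0 + g.c + 0 * g.b = g.c; ring
  mul_one g := by
    apply Heis.ext
    · change g.a + 0 = g.a; ring
    · change g.b + 0 = g.b; ring
    · change g.c + 0 + g.a * 0 = g.c; ring
  inv_mul_cancel g := by
    apply Heis.ext
    · change -g.a + g.a = 0; ring
    · change -g.b + g.b = 0; ring
    · change -g.c + g.a * g.b + g.c + -g.a * g.b = 0; ring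

section
variable {R : Type} [CommRing R]
@[simp] theorem Heis.mul_a (g h : Heis R) : (g * h).a = g.a + h.a := rfl
@[simp] theorem Heis.mul_b (g h : Heis R) : (g * h).b = g.b + h.b := rfl
@[simp] theorem Heis.mul_c (g h : Heis R) : (g * h).c = g.c + h.c + g.a * h.b := rfl
@[simp] theorem Heis.one_a : (1 : Heis R).a = 0 := rfl
@[simp] theorem Heis.one_b : (1 : Heis R).b = 0 := rfl
@[simp] theorem Heis.one_c : (1 : Heis R).c = 0 := rfl

theorem Heis.pow_cmp (g h : Heis R) (ha : g.a = h.a) (hb : g.b = h.b) (k : ℕ) :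
    (g ^ k).a = (h ^ k).a ∧ (g ^ k).b = (h ^ k).b ∧ (g ^ k).c - (h ^ k).c = k * (g.c - h.c) := by
  induction k with
  | zero => simp
  | succ k ih =>
    obtain ⟨h1, h2, h3⟩ := ih
    refine ⟨?_, ?_, ?_⟩
    · simp [pow_succ, h1, ha]
    · simp [pow_succ, h2, hb]
    · simp only [pow_succ, Heis.mul_c, h1, hb]
      push_cast
      linear_combination h3

theorem Heis.rel_iff (g h : Heis R) (k : ℕ) :
    (g * h) ^ k = (h * g) ^ k ↔ (k : R) * (g.a * h.b - g.b * h.a) = 0 := by
  obtain ⟨h1, h2, h3⟩ := Heis.pow_cmp (g * h) (h * g) (by simp [add_comm]) (by simp [add_comm]) k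
  simp only [Heis.mul_c] at h3
  constructor
  · intro h
    rw [h] at h3
    linear_combination -h3
  · intro h
    apply Heis.ext h1 h2
    linear_combination h3 + h

/-- first coordinate -/
def Heis.ha : Heis R →* Multiplicative R where
  toFun g := Multiplicative.ofAdd g.a
  map_one' := rfl
  map_mul' _ _ := rfl

/-- second coordinate -/
def Heis.hb : Heis R →* Multiplicative R where
  toFun g := Multiplicative.ofAdd g.b
  map_one' := rfl
  map_mul' _ _ := rfl
end

/-- The nilpotent (class two) constraint. -/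
def KProp {V V' : Type} (n : V → V → ℕ) (m : V' → V' → ℕ) (A : Matrix V V' ℤ) : Prop :=
  ∀ u v x y, adj n u v → x ≠ y → (m x y : ℤ) ∣ n u v * (A u x * A v y - A u y * A v x)

theorem kprop_mat [Fintype S'] {M : CoxeterMatrix S} {M' : CoxeterMatrix S'} (he : IsEven M)
    (he' : IsEven M') (Φ : ArtinGroup M →* ArtinGroup M') :
    KProp (hl M) (hl M') (mat he' Φ) := by
  intro u v x y huv hxy
  obtain ⟨ψ, hψ⟩ := exists_lift he' (H := Heis (ZMod (hl M' x y)))
    (fun s => ⟨if s = x then 1 else 0, if s = y then 1 else 0, 0⟩) (by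
      intro s t hst
      rw [Heis.rel_iff]
      have hne := hst.1
      by_cases h1 : s = x
      · by_cases h2 : t = y
        · subst h1; subst h2; simp
        · subst h1; simp [h2, hxy]
      · by_cases h2 : s = y
        · by_cases h3 : t = x
          · subst h2; subst h3; rw [hl_symm M' s t]; simp
          · simp [h1, h3]
        · simp [h1, h2])
  have ha : ∀ w, (ψ (Φ (gen M w))).a = (mat he' Φ w x : ZMod (hl M' x y)) := by
    intro w
    have := hom_comm_apply he' (Heis.ha.comp ψ) (Φ (gen M w))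
    simpa [Heis.ha, hψ, mat] using this
  have hb : ∀ w, (ψ (Φ (gen M w))).b = (mat he' Φ w y : ZMod (hl M' x y)) := by
    intro w
    have := hom_comm_apply he' (Heis.hb.comp ψ) (Φ (gen M w))
    simpa [Heis.hb, hψ, mat] using this
  have h1 := congrArg (fun g => ψ (Φ g)) (gen_rel he huv)
  simp only [map_pow, map_mul] at h1
  rw [Heis.rel_iff, ha, ha, hb, hb] at h1
  rw [← ZMod.intCast_zmod_eq_zero_iff_dvd]
  push_cast
  exact h1

end Pool.Agent.Lib.MP_1b8ce0_al
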