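import Pool.Agent.Lib.MP_1b8ce0_al.Group

namespace Pool.Agent.Lib.MP_1b8ce0_al

open Finset

/-- geometric sum -/
noncomputable def gs (k : ℕ) (t : ℂ) : ℂ := ∑ i ∈ range k, t ^ i

/-- affine group of the complex line -/
@[ext] structure Aff where
  a : ℂˣ
  b : ℂ

noncomputable instance : Group Aff where
  mul g h := ⟨g.a * h.a, g.b + g.a * h.b⟩
  one := ⟨1, 0⟩
  inv g := ⟨g.a⁻¹, -((g.a⁻¹ : ℂˣ) : ℂ) * g.b⟩
  mul_assoc g h k := by
    apply Aff.ext
    · exact mul_assoc _ _ _
    · change g.b + g.a * h.b + ((g.a * h.a : ℂˣ) : ℂ) * k.b = g.b + g.a * (h.b + h.a * k.b)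
      push_cast; ring
  one_mul g := by
    apply Aff.ext
    · exact one_mul _
    · change 0 + ((1 : ℂˣ) : ℂ) * g.b = g.b
      simp
  mul_one g := by
    apply Aff.ext
    · exact mul_one _
    · change g.b + g.a * 0 = g.b
      simp
  inv_mul_cancel g := by
    apply Aff.ext
    · exact inv_mul_cancel _
    · change -((g.a⁻¹ : ℂˣ) : ℂ) * g.b + ((g.a⁻¹ : ℂˣ) : ℂ) * g.b = 0
      ring

@[simp] theorem Aff.mul_a (g h : Aff) : (g * h).a = g.a * h.a := rfl
@[simp] theorem Aff.mul_b (g h : Aff) : (g * h).b = g.b + g.a * h.b := rfl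
@[simp] theorem Aff.one_a : (1 : Aff).a = 1 := rfl
@[simp] theorem Aff.one_b : (1 : Aff).b = 0 := rfl

theorem Aff.pow_eq (g : Aff) (k : ℕ) : (g ^ k).a = g.a ^ k ∧ (g ^ k).b = gs k g.a * g.b := by
  induction k with
  | zero => simp [gs]
  | succ k ih =>
    obtain ⟨h1, h2⟩ := ih
    refine ⟨by simp [pow_succ, h1], ?_⟩
    simp only [pow_succ, Aff.mul_b, h1, h2, gs, Finset.sum_range_succ]
    push_cast; ring

theorem Aff.rel_iff (g h : Aff) (k : ℕ) :
    (g * h) ^ k = (h * g) ^ k ↔
      gs k ((g.a : ℂ) * h.a) * ((1 - (h.a : ℂ)) * g.b - (1 - (g.a : ℂ)) * h.b) = 0 := by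
  obtain ⟨h1, h2⟩ := Aff.pow_eq (g * h) k
  obtain ⟨h3, h4⟩ := Aff.pow_eq (h * g) k
  simp only [Aff.mul_a, Aff.mul_b, Units.val_mul] at h1 h2 h3 h4
  rw [mul_comm (h.a : ℂ) g.a] at h4
  constructor
  · intro hh
    rw [hh, h4] at h2
    linear_combination -h2
  · intro hh
    apply Aff.ext
    · rw [h1, h3, mul_comm]
    · rw [h2, h4]; linear_combination hh

/-- first coordinate -/
noncomputable def Aff.ha : Aff →* ℂˣ where
  toFun g := g.a
  map_one' := rfl
  map_mul' _ _ := rfl

/-- cocycles -/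
def Z1 {G : Type} [Group G] (χ : G →* ℂˣ) : Submodule ℂ (G → ℂ) where
  carrier := {F | ∀ g h, F (g * h) = F g + χ g * F h}
  add_mem' := by
    intro F F' hF hF' g h
    simp only [Pi.add_apply, hF g h, hF' g h]; ring
  zero_mem' := by intro g h; simp
  smul_mem' := by
    intro c F hF g h
    simp only [Pi.smul_apply, hF g h, smul_eq_mul]; ring

/-- solutions on generators -/
def Sol {V : Type} (n : V → V → ℕ) (ρ : V → ℂ) : Submodule ℂ (V → ℂ) where
  carrier := {f | ∀ u w, adj n u w →
    gs (n u w) (ρ u * ρ w) * ((1 - ρ w) * f u - (1 - ρ u) * f w) = 0}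
  add_mem' := by
    intro F F' hF hF' u w h
    simp only [Pi.add_apply]
    linear_combination hF u w h + hF' u w h
  zero_mem' := by intro g h; simp
  smul_mem' := by
    intro c F hF u w h
    simp only [Pi.smul_apply, smul_eq_mul]
    linear_combination c * hF u w h

/-- the affine representation of a cocycle -/
noncomputable def homOf {G : Type} [Group G] (χ : G →* ℂˣ) (F : Z1 χ) : G →* Aff where
  toFun g := ⟨χ g, F.1 g⟩
  map_one' := by
    apply Aff.ext
    · simp
    · have := F.2 1 1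
      simp only [mul_one, map_one, Units.val_one, one_mul] at this
      simp only [Aff.one_b]
      linear_combination -this
  map_mul' g h := by
    apply Aff.ext
    · simp
    · exact F.2 g h

variable {S S' : Type}

theorem finrank_Z1 {M : CoxeterMatrix S} (he : IsEven M) (χ : ArtinGroup M →* ℂˣ) :
    Module.finrank ℂ (Z1 χ) = Module.finrank ℂ (Sol (hl M) fun u => (χ (gen M u) : ℂ)) := by
  let ev : Z1 χ →ₗ[ℂ] Sol (hl M) fun u => (χ (gen M u) : ℂ) :=
    { toFun := fun F => ⟨fun u => F.1 (gen M u), by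
        intro u w h
        have h1 := congrArg (homOf χ F) (gen_rel he h)
        simp only [map_pow, map_mul] at h1
        rw [Aff.rel_iff] at h1
        exact h1⟩
      map_add' := fun _ _ => rfl
      map_smul' := fun _ _ => rfl }
  apply LinearEquiv.finrank_eq
  apply LinearEquiv.ofBijective ev
  constructor
  · intro F F' h
    have h1 : homOf χ F = homOf χ F' := by
      apply hom_ext
      intro s
      apply Aff.ext
      · rfl
      · exact congrFun (congrArg Subtype.val h) s
    ext g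
    exact congrArg (fun φ : ArtinGroup M →* Aff => (φ g).b) h1
  · intro f
    obtain ⟨φ, hφ⟩ := exists_lift he (H := Aff) (fun u => ⟨χ (gen M u), f.1 u⟩) (by
      intro s t hst
      rw [Aff.rel_iff]
      exact f.2 s t hst)
    have h1 : Aff.ha.comp φ = χ := by
      apply hom_ext
      intro s
      simp [Aff.ha, hφ]
    refine ⟨⟨fun g => (φ g).b, ?_⟩, ?_⟩
    · intro g h
      rw [← h1]
      simp [Aff.ha]
    · ext u
      simp [ev, hφ]

theorem finrank_Z1_comp {G G' : Type} [Group G] [Group G'] (Φ : G ≃* G') (χ : G' →* ℂˣ) :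
    Module.finrank ℂ (Z1 χ) = Module.finrank ℂ (Z1 (χ.comp Φ.toMonoidHom)) := by
  apply LinearEquiv.finrank_eq
  exact
    { toFun := fun F => ⟨fun g => F.1 (Φ g), by
        intro g h
        simp only [map_mul]
        exact F.2 _ _⟩
      map_add' := fun _ _ => rfl
      map_smul' := fun _ _ => rfl
      invFun := fun F => ⟨fun g => F.1 (Φ.symm g), by
        intro g h
        have := F.2 (Φ.symm g) (Φ.symm h)
        simpa using this⟩
      left_inv := by intro F; ext g; simp
      right_inv := by intro F; ext g; simp }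

theorem finrank_le_of_nocut {V : Type} [Fintype V] (n : V → V → ℕ) (hn : ∀ u v, n u v = n v u)
    (ρ ρ0 : V → ℂ) (a : V → Prop)
    (h0 : ∀ u, ¬ a u → ρ0 u = 1) (h0' : ∀ u, a u → ρ0 u ≠ 1) (h1 : ∀ u, a u → ρ u ≠ 1)
    (hal : ∀ u w, adj n u w → ¬ a u → a w → gs (n u w) (ρ u * ρ w) ≠ 0)
    (hcut : ∀ f ∈ Sol n ρ, ∀ u w, adj n u w → a u → a w →
      f u / (1 - ρ u) = f w / (1 - ρ w)) :
    Module.finrank ℂ (Sol n ρ) ≤ Module.finrank ℂ (Sol n ρ0) := by
  classical
  let co : V → ℂ := fun u =>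
    if a u then (1 - ρ0 u) / (1 - ρ u) else if ∃ w, adj n u w ∧ a w then 0 else 1
  let T : Sol n ρ →ₗ[ℂ] Sol n ρ0 :=
    { toFun := fun f => ⟨fun u => co u * f.1 u, by
        intro u w h
        by_cases hu : a u
        · by_cases hw : a w
          · have := hcut f.1 f.2 u w h hu hw
            have e1 := sub_ne_zero.2 (h1 u hu).symm
            have e2 := sub_ne_zero.2 (h1 w hw).symm
            simp only [co, hu, hw, if_true]
            apply mul_eq_zero_of_right
            have e3 : (1 - ρ0 u) / (1 - ρ u) * f.1 u = (1 - ρ0 u) * (f.1 u / (1 - ρ u)) := by ring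
            have e4 : (1 - ρ0 w) / (1 - ρ w) * f.1 w = (1 - ρ0 w) * (f.1 w / (1 - ρ w)) := by ring
            rw [e3, e4, this]; ring
          · have e : ∃ w', adj n w w' ∧ a w' := ⟨u, ⟨h.1.symm, by rw [hn]; exact h.2⟩, hu⟩
            simp [co, hw, e, h0 w hw]
        · by_cases hw : a w
          · have e : ∃ w', adj n u w' ∧ a w' := ⟨w, h, hw⟩
            simp [co, hu, e, h0 u hu]
          · simp [h0 u hu, h0 w hw]⟩
      map_add' := by intro f g; ext u; simp [mul_add]
      map_smul' := by intro c f; ext u; simp [mul_left_comm] }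
  apply LinearMap.finrank_le_finrank_of_injective (f := T)
  rw [injective_iff_map_eq_zero]
  intro f hf
  have hz : ∀ u, co u * f.1 u = 0 := fun u => congrFun (congrArg Subtype.val hf) u
  have hza : ∀ u, a u → f.1 u = 0 := by
    intro u hu
    have := hz u
    simp only [co, hu, if_true] at this
    rcases mul_eq_zero.1 this with h | h
    · exfalso
      exact div_ne_zero (sub_ne_zero.2 (h0' u hu).symm) (sub_ne_zero.2 (h1 u hu).symm) h
    · exact h
  ext u
  by_cases hu : a u
  · exact hza u hu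
  · by_cases he : ∃ w, adj n u w ∧ a w
    · obtain ⟨w, hw, haw⟩ := he
      have e := f.2 u w hw
      rcases mul_eq_zero.1 e with h | h
      · exact absurd h (hal u w hw hu haw)
      · rw [hza w haw, mul_zero, sub_zero] at h
        rcases mul_eq_zero.1 h with h | h
        · exact absurd h (sub_ne_zero.2 (h1 w haw).symm)
        · exact h
    · have := hz u
      simp only [co, hu, he, if_false, one_mul] at this
      exact this

theorem finrank_lt_of_cut {V : Type} [Fintype V] (n : V → V → ℕ) (hn : ∀ u v, n u v = n v u)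
    (ρ ρ0 : V → ℂ) (a : V → Prop) (X : Set V)
    (h0 : ∀ u, ¬ a u → ρ0 u = 1) (h0' : ∀ u, a u → ρ0 u ≠ 1) (h1 : ∀ u, a u → ρ u ≠ 1)
    (h1' : ∀ u, ¬ a u → ρ u = 1)
    (hal : ∀ u w, adj n u w → gs (n u w) (ρ0 u * ρ0 w) ≠ 0)
    (hex : ∃ x ∈ X, ∃ y ∉ X, adj n x y ∧ a x ∧ a y)
    (hdead : ∀ x ∈ X, ∀ y ∉ X, adj n x y → a x → a y → gs (n x y) (ρ x * ρ y) = 0) :
    Module.finrank ℂ (Sol n ρ0) < Module.finrank ℂ (Sol n ρ) := by
  classical
  let co : V → ℂ := fun u => if a u then (1 - ρ u) / (1 - ρ0 u) else 1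
  have hco : ∀ u, co u ≠ 0 := by
    intro u
    by_cases hu : a u
    · simp only [co, hu, if_true]
      exact div_ne_zero (sub_ne_zero.2 (h1 u hu).symm) (sub_ne_zero.2 (h0' u hu).symm)
    · simp [co, hu]
  have key : ∀ g ∈ Sol n ρ0, ∀ u w, adj n u w → (1 - ρ0 w) * g u = (1 - ρ0 u) * g w := by
    intro g hg u w h
    exact sub_eq_zero.1 ((mul_eq_zero.1 (hg u w h)).resolve_left (hal u w h))
  let T : Sol n ρ0 →ₗ[ℂ] Sol n ρ :=
    { toFun := fun f => ⟨fun u => co u * f.1 u, by
        intro u w h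
        have e := key f.1 f.2 u w h
        apply mul_eq_zero_of_right
        by_cases hu : a u
        · have e1 := sub_ne_zero.2 (h0' u hu).symm
          by_cases hw : a w
          · have e2 := sub_ne_zero.2 (h0' w hw).symm
            simp only [co, hu, hw, if_true]
            field_simp
            linear_combination (1 - ρ w) * (1 - ρ u) * e
          · rw [h0 w hw, sub_self, zero_mul] at e
            have := (mul_eq_zero.1 e.symm).resolve_left e1
            simp [h1' w hw, this]
        · by_cases hw : a w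
          · have e2 := sub_ne_zero.2 (h0' w hw).symm
            rw [h0 u hu, sub_self, zero_mul] at e
            have := (mul_eq_zero.1 e).resolve_left e2
            simp [h1' u hu, this]
          · simp [h1' u hu, h1' w hw]⟩
      map_add' := by intro f g; ext u; simp [mul_add]
      map_smul' := by intro c f; ext u; simp [mul_left_comm] }
  have hinj : Function.Injective T := by
    rw [injective_iff_map_eq_zero]
    intro f hf
    ext u
    have hz : co u * f.1 u = 0 := congrFun (congrArg Subtype.val hf) u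
    exact (mul_eq_zero.1 hz).resolve_left (hco u)
  have hmem : (fun u => if u ∈ X then 1 - ρ u else 0) ∈ Sol n ρ := by
    intro u w h
    by_cases hu : u ∈ X
    · by_cases hw : w ∈ X
      · simp only [hu, hw, if_true]; ring
      · simp only [hu, hw, if_true, if_false]
        by_cases hau : a u
        · by_cases haw : a w
          · rw [hdead u hu w hw h hau haw, zero_mul]
          · simp [h1' w haw]
        · simp [h1' u hau]
    · by_cases hw : w ∈ X
      · simp only [hu, hw, if_true, if_false]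
        by_cases hau : a u
        · by_cases haw : a w
          · have := hdead w hw u hu ⟨h.1.symm, by rw [hn]; exact h.2⟩ haw hau
            rw [hn w u, mul_comm (ρ w)] at this
            rw [this, zero_mul]
          · simp [h1' w haw]
        · simp [h1' u hau]
      · simp [hu, hw]
  rw [← LinearMap.finrank_range_of_inj hinj]
  apply Submodule.finrank_lt
  intro htop
  have : (⟨_, hmem⟩ : Sol n ρ) ∈ LinearMap.range T := by rw [htop]; trivial
  obtain ⟨g, hg⟩ := this
  obtain ⟨x, hx, y, hy, hxy, hax, hay⟩ := hex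
  have e1 : co x * g.1 x = if x ∈ X then 1 - ρ x else 0 := congrFun (congrArg Subtype.val hg) x
  have e2 : co y * g.1 y = if y ∈ X then 1 - ρ y else 0 := congrFun (congrArg Subtype.val hg) y
  simp only [hx, hy, if_true, if_false] at e1 e2
  have e3 := (mul_eq_zero.1 e2).resolve_left (hco y)
  have e4 := key g.1 g.2 x y hxy
  rw [e3, mul_zero] at e4
  have e5 := (mul_eq_zero.1 e4).resolve_left (sub_ne_zero.2 (h0' y hay).symm)
  rw [e5, mul_zero] at e1
  exact (sub_ne_zero.2 (h1 x hax).symm) e1.symm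

/-- a rational number is an integer -/
def IsI (q : ℚ) : Prop := ∃ j : ℤ, q = j

/-- character values -/
noncomputable def ch (p : ℝ × ℚ) : ℂ :=
  Complex.exp ((p.1 : ℂ) + (p.2 : ℂ) * (2 * Real.pi * Complex.I))

theorem ch_add (p q : ℝ × ℚ) : ch (p + q) = ch p * ch q := by
  unfold ch
  rw [← Complex.exp_add]
  congr 1
  simp only [Prod.fst_add, Prod.snd_add]
  push_cast; ring

theorem ch_zero : ch 0 = 1 := by simp [ch]

theorem ch_eq_one (p : ℝ × ℚ) : ch p = 1 ↔ p.1 = 0 ∧ IsI p.2 := by
  unfold ch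
  rw [Complex.exp_eq_one_iff]
  constructor
  · rintro ⟨k, hk⟩
    have hre := congrArg Complex.re hk
    have him := congrArg Complex.im hk
    simp at hre him
    refine ⟨hre, k, ?_⟩
    exact_mod_cast him
  · rintro ⟨h1, j, hj⟩
    refine ⟨j, ?_⟩
    rw [h1, hj]; simp

theorem ch_nsmul (p : ℝ × ℚ) (k : ℕ) : ch (k • p) = ch p ^ k := by
  induction k with
  | zero => simp [ch_zero]
  | succ k ih => rw [succ_nsmul, ch_add, ih, pow_succ]

theorem gs_ch (k : ℕ) (hk : k ≠ 0) (p : ℝ × ℚ) :
    gs k (ch p) = 0 ↔ p.1 = 0 ∧ IsI (k * p.2) ∧ ¬ IsI p.2 := by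
  have hg : gs k (ch p) * (ch p - 1) = ch p ^ k - 1 := geom_sum_mul _ _
  have hk' : (k : ℝ) ≠ 0 := by exact_mod_cast hk
  constructor
  · intro h
    rw [h, zero_mul, ← ch_nsmul] at hg
    have h2 := (ch_eq_one _).1 (sub_eq_zero.1 hg.symm)
    rw [Prod.smul_fst, Prod.smul_snd, nsmul_eq_mul, nsmul_eq_mul] at h2
    have h3 : p.1 = 0 := (mul_eq_zero.1 h2.1).resolve_left hk'
    refine ⟨h3, h2.2, fun h4 => ?_⟩
    have h5 := (ch_eq_one p).2 ⟨h3, h4⟩
    rw [h5] at h
    simp [gs, hk] at h
  · rintro ⟨h1, h2, h3⟩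
    have h4 : ch p ≠ 1 := fun h => h3 ((ch_eq_one p).1 h).2
    have h5 : ch (k • p) = 1 := by
      rw [ch_eq_one, Prod.smul_fst, Prod.smul_snd, nsmul_eq_mul, nsmul_eq_mul]
      exact ⟨by rw [h1, mul_zero], h2⟩
    rw [← ch_nsmul, h5, sub_self] at hg
    exact (mul_eq_zero.1 hg).resolve_right (sub_ne_zero.2 h4)

/-- the character as a homomorphism -/
noncomputable def chHom : Multiplicative (ℝ × ℚ) →* ℂˣ :=
  MonoidHom.toHomUnits
    { toFun := fun p => ch p.toAdd
      map_one' := ch_zero
      map_mul' := fun _ _ => ch_add _ _ }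

theorem chHom_apply (p : Multiplicative (ℝ × ℚ)) : (chHom p : ℂ) = ch p.toAdd := rfl

theorem finrank_transfer [DecidableEq S'] [Fintype S'] {M : CoxeterMatrix S}
    {M' : CoxeterMatrix S'} (he : IsEven M)
    (he' : IsEven M') (Φ : ArtinGroup M ≃* ArtinGroup M') (p : S' → ℝ × ℚ) :
    Module.finrank ℂ (Sol (hl M') fun x => ch (p x)) =
      Module.finrank ℂ (Sol (hl M) fun u => ch (∑ x, mat he' Φ.toMonoidHom u x • p x)) := by
  obtain ⟨τ, hτ⟩ := exists_lift_comm he' (fun x => Multiplicative.ofAdd (p x))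
  have h1 := finrank_Z1 he' (chHom.comp τ)
  have h2 := finrank_Z1 he ((chHom.comp τ).comp Φ.toMonoidHom)
  have h3 := finrank_Z1_comp Φ (chHom.comp τ)
  have e1 : (fun u => (((chHom.comp τ) (gen M' u) : ℂˣ) : ℂ)) = fun x => ch (p x) := by
    funext u
    simp [chHom_apply, hτ]
  have e2 : (fun u => ((((chHom.comp τ).comp Φ.toMonoidHom) (gen M u) : ℂˣ) : ℂ)) =
      fun u => ch (∑ x, mat he' Φ.toMonoidHom u x • p x) := by
    funext u
    simp only [MonoidHom.comp_apply, chHom_apply]
    rw [hom_comm_apply he' τ]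
    simp [hτ, mat]
  rw [e1] at h1
  rw [e2] at h2
  rw [← h1, ← h2, h3]

/-- The jump constraint. -/
def JProp {V V' : Type} [Fintype V'] (n : V → V → ℕ) (m : V' → V' → ℕ) (A : Matrix V V' ℤ) :
    Prop :=
  ∀ (lam : V' → ℝ) (mu : V' → ℚ) (X : Set V') (L : V → ℝ) (U : V → ℚ),
    (∀ u, L u = ∑ x, A u x * lam x) → (∀ u, U u = ∑ x, A u x * mu x) →
    (∀ x, lam x = 0 → mu x = 0) →
    (∃ x ∈ X, ∃ y ∉ X, adj m x y ∧ lam x ≠ 0 ∧ lam y ≠ 0) →
    (∀ x ∈ X, ∀ y ∉ X, adj m x y → lam x ≠ 0 → lam y ≠ 0 →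
      lam x + lam y = 0 ∧ IsI (m x y * (mu x + mu y)) ∧ ¬ IsI (mu x + mu y)) →
    ∃ c : V → ℂ, (∃ v w, adj n v w ∧ L v ≠ 0 ∧ L w ≠ 0 ∧ c v ≠ c w) ∧
      ∀ u w, adj n u w → (L u ≠ 0 ∨ ¬ IsI (U u)) → (L w ≠ 0 ∨ ¬ IsI (U w)) → c u ≠ c w →
        L u + L w = 0 ∧ IsI (n u w * (U u + U w)) ∧ ¬ IsI (U u + U w)

theorem isI_zero : IsI 0 := ⟨0, by simp⟩

theorem jprop_mat [Fintype S] [DecidableEq S'] [Fintype S'] {M : CoxeterMatrix S}
    {M' : CoxeterMatrix S'} (he : IsEven M)
    (he' : IsEven M') (Φ : ArtinGroup M ≃* ArtinGroup M') :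
    JProp (hl M) (hl M') (mat he' Φ.toMonoidHom) := by
  intro lam mu X L U hL hU hz hex hdead
  by_contra hcon
  have t1 := finrank_transfer he he' Φ fun x => (lam x, mu x)
  have t0 := finrank_transfer he he' Φ fun x => (lam x, 0)
  have s1 : ∀ u, (∑ x, mat he' Φ.toMonoidHom u x • ((lam x, mu x) : ℝ × ℚ)) = (L u, U u) := by
    intro u
    rw [hL, hU]
    ext
    · simp [Prod.fst_sum]
    · simp [Prod.snd_sum]
  have s0 : ∀ u, (∑ x, mat he' Φ.toMonoidHom u x • ((lam x, 0) : ℝ × ℚ)) = (L u, 0) := by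
    intro u
    rw [hL]
    ext
    · simp [Prod.fst_sum]
    · simp [Prod.snd_sum]
  rw [show (fun u => ch (∑ x, mat he' Φ.toMonoidHom u x • ((lam x, mu x) : ℝ × ℚ))) =
    fun u => ch (L u, U u) from funext fun u => by rw [s1]] at t1
  rw [show (fun u => ch (∑ x, mat he' Φ.toMonoidHom u x • ((lam x, 0) : ℝ × ℚ))) =
    fun u => ch (L u, 0) from funext fun u => by rw [s0]] at t0
  have i2 := finrank_lt_of_cut (hl M') (hl_symm M') (fun x => ch (lam x, mu x))
    (fun x => ch (lam x, 0)) (fun x => lam x ≠ 0) X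
    (by
      intro u hu
      rw [ch_eq_one]; exact ⟨not_not.1 hu, isI_zero⟩)
    (by
      intro u hu h
      exact hu ((ch_eq_one _).1 h).1)
    (by
      intro u hu h
      exact hu ((ch_eq_one _).1 h).1)
    (by
      intro u hu
      rw [ch_eq_one]
      refine ⟨not_not.1 hu, ?_⟩
      simp only [hz u (not_not.1 hu)]; exact isI_zero)
    (by
      intro u w h h2
      rw [← ch_add, gs_ch _ h.2] at h2
      apply h2.2.2
      simpa using isI_zero)
    hex
    (by
      intro x hx y hy h hax hay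
      rw [← ch_add, gs_ch _ h.2]
      exact hdead x hx y hy h hax hay)
  have i1 := finrank_le_of_nocut (hl M) (hl_symm M) (fun u => ch (L u, U u))
    (fun u => ch (L u, 0)) (fun u => L u ≠ 0)
    (by
      intro u hu
      rw [ch_eq_one]; exact ⟨not_not.1 hu, isI_zero⟩)
    (by
      intro u hu h
      exact hu ((ch_eq_one _).1 h).1)
    (by
      intro u hu h
      exact hu ((ch_eq_one _).1 h).1)
    (by
      intro u w h hu hw h2
      rw [← ch_add, gs_ch _ h.2] at h2
      have := h2.1
      simp only [Prod.fst_add] at this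
      rw [not_not.1 hu, zero_add] at this
      exact hw this)
    (by
      intro f hf u w h hu hw
      by_contra hne
      apply hcon
      refine ⟨fun u => f u / (1 - ch (L u, U u)), ⟨u, w, h, hu, hw, hne⟩, ?_⟩
      intro u w h hu hw hne
      have e1 : ch (L u, U u) ≠ 1 := by
        intro e
        have := (ch_eq_one _).1 e
        rcases hu with hu | hu
        · exact hu this.1
        · exact hu this.2
      have e2 : ch (L w, U w) ≠ 1 := by
        intro e
        have := (ch_eq_one _).1 e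
        rcases hw with hw | hw
        · exact hw this.1
        · exact hw this.2
      rcases mul_eq_zero.1 (hf u w h) with e | e
      · rw [← ch_add, gs_ch _ h.2] at e
        exact e
      · exfalso
        apply hne
        have e3 := sub_ne_zero.2 e1.symm
        have e4 := sub_ne_zero.2 e2.symm
        simp only
        rw [div_eq_div_iff e3 e4]
        linear_combination e)
  omega

end Pool.Agent.Lib.MP_1b8ce0_al
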