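import Pool.Agent.Lib.MP_1b8ce0_al.Comb5

namespace Pool.Agent.Lib.MP_1b8ce0_al

open Finset

variable {S S' : Type}

theorem no_small {M : CoxeterMatrix S} (he : IsEven M) (hd : TwoDim M) (x y z : S)
    (h : adj (hl M) y z) (h1 : hl M x y = 1) (h2 : hl M x z = 1) : x = y ∨ x = z := by
  by_contra hh
  rw [not_or] at hh
  have e := hd.2 x y z hh.1 h.1 hh.2
  rw [two_mul_hl he hh.1, two_mul_hl he hh.2, two_mul_hl he h.1, h1, h2] at e
  have h3 : (0 : ℚ) < 1 / ((2 * hl M y z : ℕ) : ℚ) := by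
    have := Nat.pos_of_ne_zero h.2
    positivity
  have h4 : (1 : ℚ) / ((2 * 1 : ℕ) : ℚ) = 1 / 2 := by norm_num
  rw [h4] at e
  linarith

theorem one_dir [Fintype S] [Fintype S'] {M : CoxeterMatrix S} {M' : CoxeterMatrix S'}
    (he : IsEven M) (he' : IsEven M') (hd' : TwoDim M') (Φ : ArtinGroup M ≃* ArtinGroup M') :
    ∃ σ : S ≃ S', ∀ s t, s ≠ t → hl M' (σ s) (σ t) ≤ hl M s t := by
  classical
  obtain ⟨σ, N⟩ := exists_norm (hl_symm M) (hl_symm M') (kprop_mat he he' Φ.toMonoidHom)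
    (kprop_mat he' he Φ.symm.toMonoidHom) (mat_mul he he' Φ) (mat_mul he' he Φ.symm)
    (jprop_mat he he' Φ) (no_small he' hd')
  obtain ⟨π, hπ⟩ := exists_perm N
  refine ⟨π.trans σ, fun s t hst => ?_⟩
  by_cases h : adj (hl M) s t
  · exact Nat.le_of_dvd (Nat.pos_of_ne_zero h.2) ((hπ s t).2 h)
  · rw [(hπ s t).1] at h
    have : hl M' (σ (π s)) (σ (π t)) = 0 := by
      by_contra hh
      exact h ⟨π.injective.ne hst, hh⟩
    simp [this]

theorem rigid [Fintype S] [Fintype S'] {M : CoxeterMatrix S} {M' : CoxeterMatrix S'}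
    (he : IsEven M) (he' : IsEven M') (hd : TwoDim M) (hd' : TwoDim M')
    (Φ : ArtinGroup M ≃* ArtinGroup M') : ∃ σ : S ≃ S', ∀ s t, M' (σ s) (σ t) = M s t := by
  classical
  obtain ⟨σ, hσ⟩ := one_dir he he' hd' Φ
  obtain ⟨τ, hτ⟩ := one_dir he' he hd Φ.symm
  let w : S × S → ℕ := fun p => if p.1 = p.2 then 0 else hl M p.1 p.2
  let w' : S' × S' → ℕ := fun p => if p.1 = p.2 then 0 else hl M' p.1 p.2
  have h1 : ∀ p, w' (σ.prodCongr σ p) ≤ w p := by
    rintro ⟨s, t⟩
    by_cases h : s = t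
    · simp [w, w', h]
    · simpa [w, w', h] using hσ s t h
  have h2 : ∀ p, w (τ.prodCongr τ p) ≤ w' p := by
    rintro ⟨s, t⟩
    by_cases h : s = t
    · simp [w, w', h]
    · simpa [w, w', h] using hτ s t h
  have e1 := (σ.prodCongr σ).sum_comp w'
  have e2 := (τ.prodCongr τ).sum_comp w
  have h3 : ∑ p, w (τ.prodCongr τ p) ≤ ∑ p, w' p := Finset.sum_le_sum fun p _ => h2 p
  have h4 : ∑ p, w' (σ.prodCongr σ p) ≤ ∑ p, w p := Finset.sum_le_sum fun p _ => h1 p
  have h5 : ∑ p, w' (σ.prodCongr σ p) = ∑ p, w p := by omega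
  rw [Finset.sum_eq_sum_iff_of_le fun p _ => h1 p] at h5
  refine ⟨σ, fun s t => ?_⟩
  by_cases h : s = t
  · simp [h]
  · have := h5 (s, t) (Finset.mem_univ _)
    simp only [w, w', Equiv.prodCongr_apply, Prod.map, h, EmbeddingLike.apply_eq_iff_eq,
      if_false] at this
    rw [two_mul_hl he h, two_mul_hl he' (σ.injective.ne h), this]

theorem exists_hom_of_eq {M : CoxeterMatrix S} {M' : CoxeterMatrix S'} (σ : S ≃ S')
    (h : ∀ s t, M' (σ s) (σ t) = M s t) :
    ∃ φ : ArtinGroup M →* ArtinGroup M', ∀ s, φ (gen M s) = gen M' (σ s) := by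
  apply exists_lift_alt
  intro s t hst h0
  rw [← h s t] at h0 ⊢
  exact gen_alt M' (σ.injective.ne hst) h0

theorem iso_of_eq {M : CoxeterMatrix S} {M' : CoxeterMatrix S'} (σ : S ≃ S')
    (h : ∀ s t, M' (σ s) (σ t) = M s t) : Nonempty (ArtinGroup M ≃* ArtinGroup M') := by
  obtain ⟨φ, hφ⟩ := exists_hom_of_eq σ h
  obtain ⟨ψ, hψ⟩ := exists_hom_of_eq (M := M') (M' := M) σ.symm (fun s t => by
    rw [← h]; simp)
  refine ⟨MonoidHom.toMulEquiv φ ψ ?_ ?_⟩
  · apply hom_ext; intro s; simp [hφ, hψ]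
  · apply hom_ext; intro s; simp [hφ, hψ]

/-- table lookup -/
def look (L : List (List ℕ)) (i j : ℕ) : ℕ := (L.getD i []).getD j 0

/-- digit -/
def dig (n c i : ℕ) : ℕ := c / n ^ i % n

/-- the finite check -/
def Chk (p : List (List ℕ) × List (List ℕ)) : Prop :=
  p.1.length = p.2.length ∧ ∃ c ∈ List.range (p.1.length ^ p.1.length),
    ∀ i ∈ List.range p.1.length, ∀ j ∈ List.range p.1.length,
      (¬ dig p.1.length c i = dig p.1.length c j ∨ i = j) ∧
        look p.2 (dig p.1.length c i) (dig p.1.length c j) = look p.1 i j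

theorem look_prim {α : Type} [Primcodable α] {f : α → List (List ℕ)} {g h : α → ℕ}
    (hf : Primrec f) (hg : Primrec g) (hh : Primrec h) : Primrec fun a => look (f a) (g a) (h a) :=
  (Primrec.list_getD 0).comp ((Primrec.list_getD []).comp hf hg) hh

theorem pow_prim : Primrec₂ ((· ^ ·) : ℕ → ℕ → ℕ) := Primrec₂.unpaired'.1 Nat.Primrec.pow

theorem dig_prim {α : Type} [Primcodable α] {f g h : α → ℕ}
    (hf : Primrec f) (hg : Primrec g) (hh : Primrec h) : Primrec fun a => dig (f a) (g a) (h a) :=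
  Primrec.nat_mod.comp (Primrec.nat_div.comp hg (pow_prim.comp hf hh)) hf

theorem ball_prim {α : Type} [Primcodable α] {f : α → ℕ} {R : ℕ → α → Prop} (hf : Primrec f)
    (hR : PrimrecRel R) : PrimrecPred fun a => ∀ i ∈ List.range (f a), R i a :=
  hR.forall_mem_list.comp (Primrec.list_range.comp hf) Primrec.id

theorem bex_prim {α : Type} [Primcodable α] {f : α → ℕ} {R : ℕ → α → Prop} (hf : Primrec f)
    (hR : PrimrecRel R) : PrimrecPred fun a => ∃ i ∈ List.range (f a), R i a :=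
  hR.exists_mem_list.comp (Primrec.list_range.comp hf) Primrec.id

theorem chk_aux {α : Type} [Primcodable α] {P Q : α → List (List ℕ)} {k : α → ℕ}
    (hP : Primrec P) (hQ : Primrec Q) (hk : Primrec k) :
    PrimrecPred fun a => ∃ c ∈ List.range (k a ^ k a),
      ∀ i ∈ List.range (k a), ∀ j ∈ List.range (k a),
        (¬ dig (k a) c i = dig (k a) c j ∨ i = j) ∧
          look (Q a) (dig (k a) c i) (dig (k a) c j) = look (P a) i j := by
  apply bex_prim (pow_prim.comp hk hk)
  apply ball_prim (α := ℕ × α) (hk.comp Primrec.snd)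
  apply ball_prim (α := ℕ × ℕ × α) (hk.comp (Primrec.snd.comp Primrec.snd))
  have ha : Primrec fun q : ℕ × ℕ × ℕ × α => q.2.2.2 :=
    Primrec.snd.comp (Primrec.snd.comp Primrec.snd)
  have hc : Primrec fun q : ℕ × ℕ × ℕ × α => q.2.2.1 :=
    Primrec.fst.comp (Primrec.snd.comp Primrec.snd)
  have hi : Primrec fun q : ℕ × ℕ × ℕ × α => q.2.1 := Primrec.fst.comp Primrec.snd
  have hj : Primrec fun q : ℕ × ℕ × ℕ × α => q.1 := Primrec.fst
  have d1 := dig_prim (hk.comp ha) hc hi
  have d2 := dig_prim (hk.comp ha) hc hj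
  exact ((Primrec.eq.comp d1 d2).not.or (Primrec.eq.comp hi hj)).and
    (Primrec.eq.comp (look_prim (hQ.comp ha) d1 d2) (look_prim (hP.comp ha) hi hj))

theorem chk_prim : PrimrecPred Chk :=
  (Primrec.eq.comp (Primrec.list_length.comp Primrec.fst)
    (Primrec.list_length.comp Primrec.snd)).and
    (chk_aux Primrec.fst Primrec.snd (Primrec.list_length.comp Primrec.fst))

theorem look_table {k : ℕ} (M : CoxeterMatrix (Fin k)) (i j : Fin k) :
    look (table M) i j = M i j := by
  simp [look, table, List.getD_eq_getElem?_getD]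

theorem chk_iff {k k' : ℕ} (M : CoxeterMatrix (Fin k)) (M' : CoxeterMatrix (Fin k')) :
    Chk (table M, table M') ↔ ∃ σ : Fin k ≃ Fin k', ∀ s t, M' (σ s) (σ t) = M s t := by
  have l1 : (table M).length = k := by simp [table]
  have l2 : (table M').length = k' := by simp [table]
  simp only [Chk, l1, l2, List.mem_range]
  constructor
  · rintro ⟨rfl, c, _, h⟩
    let f : Fin k → Fin k := fun i => ⟨dig k c i, Nat.mod_lt _ i.pos⟩
    have hf : Function.Injective f := by
      intro i j hij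
      have := (h i i.2 j j.2).1
      exact Fin.ext (this.resolve_left (not_not.2 (congrArg Fin.val hij)))
    refine ⟨Equiv.ofBijective f (Finite.injective_iff_bijective.1 hf), fun s t => ?_⟩
    rw [← look_table, ← look_table]
    exact (h s s.2 t t.2).2
  · rintro ⟨σ, h⟩
    have hk : k = k' := by simpa using Fintype.card_congr σ
    subst hk
    refine ⟨rfl, finFunctionFinEquiv σ, (finFunctionFinEquiv σ).2, ?_⟩
    have hd : ∀ i : Fin k, dig k (finFunctionFinEquiv (σ : Fin k → Fin k)) i = σ i := by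
      intro i
      have := congrArg (fun g => (g i : ℕ)) (finFunctionFinEquiv.symm_apply_apply (σ : Fin k → Fin k))
      rw [← this, finFunctionFinEquiv_symm_apply_val]
      rfl
    intro i hi j hj
    have e1 := hd ⟨i, hi⟩
    have e2 := hd ⟨j, hj⟩
    simp only at e1 e2
    rw [e1, e2]
    refine ⟨?_, ?_⟩
    · by_cases hij : i = j
      · exact Or.inr hij
      · left
        intro hh
        exact hij (congrArg Fin.val (σ.injective (Fin.ext hh)))
    · rw [look_table, h]
      exact (look_table M ⟨i, hi⟩ ⟨j, hj⟩).symm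

end Pool.Agent.Lib.MP_1b8ce0_al
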